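import Mathlib

open MvPolynomial

namespace Pool.Agent.Lib.MP_d885f5

/-- The ideal of all polynomials vanishing at the point `q`. -/
noncomputable abbrev ptIdeal {σ : Type*} (q : σ → ℂ) : Ideal (MvPolynomial σ ℂ) :=
  RingHom.ker (MvPolynomial.eval q)

section general

variable {σ τ : Type*}

lemma mem_ptIdeal {q : σ → ℂ} {F : MvPolynomial σ ℂ} : F ∈ ptIdeal q ↔ eval q F = 0 :=
  RingHom.mem_ker

lemma eval_comp (g : MvPolynomial σ ℂ →ₐ[ℂ] MvPolynomial τ ℂ) (q : τ → ℂ) (F : MvPolynomial σ ℂ) :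
    eval q (g F) = eval (fun i => eval q (g (X i))) F := by
  have h : ((MvPolynomial.aeval q : MvPolynomial τ ℂ →ₐ[ℂ] ℂ).comp g) =
      MvPolynomial.aeval (fun i => eval q (g (X i))) := by
    apply MvPolynomial.algHom_ext
    intro i
    simp
  have h2 := DFunLike.congr_fun h F
  simpa [MvPolynomial.coe_aeval_eq_eval] using h2

/-- functoriality of vanishing orders -/
lemma mem_pow_of_hom (g : MvPolynomial σ ℂ →ₐ[ℂ] MvPolynomial τ ℂ) (q : τ → ℂ) (q' : σ → ℂ)
    (hq : ∀ i, eval q (g (X i)) = q' i) {k : ℕ} {F : MvPolynomial σ ℂ}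
    (hF : F ∈ ptIdeal q' ^ k) : g F ∈ ptIdeal q ^ k := by
  have h1 : (ptIdeal q').map (g : MvPolynomial σ ℂ →+* MvPolynomial τ ℂ) ≤ ptIdeal q := by
    rw [Ideal.map_le_iff_le_comap]
    intro G hG
    rw [Ideal.mem_comap, mem_ptIdeal]
    rw [mem_ptIdeal] at hG
    have := eval_comp g q G
    simp only [hq] at this
    rw [show (fun i => q' i) = q' from rfl, hG] at this
    exact this
  have h2 : g F ∈ (ptIdeal q' ^ k).map (g : MvPolynomial σ ℂ →+* MvPolynomial τ ℂ) :=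
    Ideal.mem_map_of_mem _ hF
  rw [Ideal.map_pow] at h2
  exact Ideal.pow_right_mono h1 k h2

/-- powers of point ideals are primary -/
lemma mem_pow_of_mul {q : σ → ℂ} {G F : MvPolynomial σ ℂ} {k : ℕ} (hG : eval q G ≠ 0)
    (h : G * F ∈ ptIdeal q ^ k) : F ∈ ptIdeal q ^ k := by
  set c := eval q G with hc
  set n : MvPolynomial σ ℂ := 1 - C c⁻¹ * G with hn
  have hnm : n ∈ ptIdeal q := by
    rw [mem_ptIdeal, hn]
    simp [← hc, hG]
  have h1 : C c⁻¹ * G = 1 - n := by rw [hn]; ring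
  have h2 : (∑ j ∈ Finset.range k, n ^ j) * (1 - n) = 1 - n ^ k := geom_sum_mul_neg n k
  have h3 : F = (∑ j ∈ Finset.range k, n ^ j) * C c⁻¹ * (G * F) + n ^ k * F := by
    have : (∑ j ∈ Finset.range k, n ^ j) * C c⁻¹ * (G * F) =
        ((∑ j ∈ Finset.range k, n ^ j) * (C c⁻¹ * G)) * F := by ring
    rw [this, h1, h2]
    ring
  rw [h3]
  exact Ideal.add_mem _ (Ideal.mul_mem_left _ _ h) (Ideal.mul_mem_right _ _ (Ideal.pow_mem_pow hnm k))

lemma C_mul_mem_iff {q : σ → ℂ} {F : MvPolynomial σ ℂ} {k : ℕ} {c : ℂ} (hc : c ≠ 0) :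
    C c * F ∈ ptIdeal q ^ k ↔ F ∈ ptIdeal q ^ k :=
  ⟨fun h => mem_pow_of_mul (by simpa using hc) h, fun h => Ideal.mul_mem_left _ _ h⟩

/-- scaling `X_i ↦ c X_i` -/
noncomputable def scaleHom (c : ℂ) : MvPolynomial σ ℂ →ₐ[ℂ] MvPolynomial σ ℂ :=
  aeval fun i => C c * X i

lemma scaleHom_homog (c : ℂ) {F : MvPolynomial σ ℂ} {d : ℕ} (hF : F.IsHomogeneous d) :
    scaleHom c F = C (c ^ d) * F := by
  conv_lhs => rw [F.as_sum]
  conv_rhs => rw [F.as_sum]
  rw [map_sum, Finset.mul_sum]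
  refine Finset.sum_congr rfl fun e he => ?_
  unfold scaleHom
  rw [aeval_monomial]
  have hd : e.degree = d := by
    by_contra h
    exact (mem_support_iff.1 he) (hF.coeff_eq_zero h)
  have h1 : (e.prod fun i n => (C c * X i : MvPolynomial σ ℂ) ^ n) =
      C (c ^ d) * (e.prod fun i n => (X i : MvPolynomial σ ℂ) ^ n) := by
    simp only [mul_pow]
    rw [Finsupp.prod_mul]
    congr 1
    rw [← hd, map_pow, Finsupp.degree_apply]
    simp only [Finsupp.prod]
    exact Finset.prod_pow_eq_pow_sum _ _ _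
  rw [h1, monomial_eq, algebraMap_eq]
  ring

lemma mem_pow_scale {q : σ → ℂ} {F : MvPolynomial σ ℂ} {d : ℕ} (hF : F.IsHomogeneous d) {k : ℕ}
    {c : ℂ} (hc : c ≠ 0) (h : F ∈ ptIdeal (fun i => c * q i) ^ k) : F ∈ ptIdeal q ^ k := by
  have h1 : scaleHom c F ∈ ptIdeal q ^ k := by
    refine mem_pow_of_hom (scaleHom c) q _ (fun i => ?_) h
    simp [scaleHom]
  rw [scaleHom_homog c hF] at h1
  exact (C_mul_mem_iff (pow_ne_zero d hc)).1 h1

lemma ptIdeal_zero : ptIdeal (0 : σ → ℂ) = idealOfVars σ ℂ := by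
  apply le_antisymm
  · intro F hF
    rw [mem_ptIdeal] at hF
    have h := (mem_pow_idealOfVars_iff' (σ := σ) (R := ℂ) 1 F).2 (fun x hx => by
      have hx0 : x = 0 := by
        have : x.degree = 0 := by omega
        exact (Finsupp.degree_eq_zero_iff x).1 this
      rw [hx0]
      simpa [eval_zero, constantCoeff_eq] using hF)
    rwa [pow_one] at h
  · rw [Ideal.span_le]
    rintro _ ⟨i, rfl⟩
    simp

end general

end Pool.Agent.Lib.MP_d885f5
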