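import Mathlib
import Pool.Agent.Lib.MP_d885f5.Base

open MvPolynomial

namespace Pool.Agent.Lib.MP_d885f5

/-- polynomials in three variables -/
abbrev S3 := MvPolynomial (Fin 3) ℂ

/-- exponent vector -/
noncomputable def fs (a b c : ℕ) : Fin 3 →₀ ℕ := Finsupp.equivFunOnFinite.symm ![a, b, c]

@[simp] lemma fs_zero (a b c : ℕ) : fs a b c 0 = a := rfl
@[simp] lemma fs_one (a b c : ℕ) : fs a b c 1 = b := rfl
@[simp] lemma fs_two (a b c : ℕ) : fs a b c 2 = c := rfl

lemma ext3 {e e' : Fin 3 →₀ ℕ} (h0 : e 0 = e' 0) (h1 : e 1 = e' 1) (h2 : e 2 = e' 2) : e = e' := by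
  ext i
  fin_cases i
  · exact h0
  · exact h1
  · exact h2

lemma deg3 (e : Fin 3 →₀ ℕ) : e.degree = e 0 + e 1 + e 2 := by
  rw [Finsupp.degree_eq_sum, Fin.sum_univ_three]

lemma mono3 (e : Fin 3 →₀ ℕ) (r : ℂ) :
    (monomial e r : S3) = C r * (X 0 ^ e 0 * X 1 ^ e 1 * X 2 ^ e 2) := by
  rw [monomial_eq, Finsupp.prod_fintype _ _ (fun i => pow_zero _), Fin.prod_univ_three]

/-- the standard quadratic Cremona transformation -/
noncomputable def sg : S3 →ₐ[ℂ] S3 := aeval ![X 1 * X 2, X 0 * X 2, X 0 * X 1]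

lemma sg_monomial (e : Fin 3 →₀ ℕ) (r : ℂ) :
    sg (monomial e r) = monomial (fs (e 1 + e 2) (e 0 + e 2) (e 0 + e 1)) r := by
  rw [mono3, mono3]
  simp only [sg, map_mul, map_pow, aeval_X, algHom_C, algebraMap_eq, fs_zero, fs_one, fs_two,
    Matrix.cons_val_zero, Matrix.cons_val_one, Matrix.cons_val]
  ring

/-- all exponents are bounded by `a` -/
def SuppLe (F : S3) (a : Fin 3 →₀ ℕ) : Prop := ∀ e ∈ F.support, e ≤ a

/-- reflection of exponents -/
noncomputable def T (a : Fin 3 →₀ ℕ) (F : S3) : S3 :=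
  ∑ e ∈ F.support, monomial (a - e) (coeff e F)

lemma coeff_T {a : Fin 3 →₀ ℕ} {F : S3} (h : SuppLe F a) (x : Fin 3 →₀ ℕ) :
    coeff x (T a F) = if x ≤ a then coeff (a - x) F else 0 := by
  classical
  unfold T
  rw [coeff_sum]
  simp only [coeff_monomial]
  split_ifs with hx
  · by_cases hax : a - x ∈ F.support
    · rw [Finset.sum_eq_single_of_mem _ hax]
      · rw [if_pos (tsub_tsub_cancel_of_le hx)]
      · intro e he hne
        rw [if_neg]
        intro h'
        apply hne
        rw [← h', tsub_tsub_cancel_of_le (h e he)]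
    · rw [notMem_support_iff.1 hax]
      refine Finset.sum_eq_zero fun e he => ?_
      rw [if_neg]
      intro h'
      apply hax
      rw [← h', tsub_tsub_cancel_of_le (h e he)]
      exact he
  · refine Finset.sum_eq_zero fun e he => ?_
    rw [if_neg]
    intro h'
    apply hx
    rw [← h']
    exact tsub_le_self

lemma T_suppLe {a : Fin 3 →₀ ℕ} {F : S3} (h : SuppLe F a) : SuppLe (T a F) a := by
  intro e he
  rw [mem_support_iff, coeff_T h] at he
  by_contra hc
  rw [if_neg hc] at he
  exact he rfl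

lemma T_T {a : Fin 3 →₀ ℕ} {F : S3} (h : SuppLe F a) : T a (T a F) = F := by
  ext x
  rw [coeff_T (T_suppLe h)]
  split_ifs with hx
  · rw [coeff_T h, if_pos tsub_le_self, tsub_tsub_cancel_of_le hx]
  · symm
    rw [← notMem_support_iff]
    intro hm
    exact hx (h x hm)

lemma mem_supp_T {a : Fin 3 →₀ ℕ} {F : S3} (h : SuppLe F a) {e : Fin 3 →₀ ℕ}
    (he : e ∈ F.support) : a - e ∈ (T a F).support := by
  rw [mem_support_iff, coeff_T h, if_pos tsub_le_self, tsub_tsub_cancel_of_le (h e he)]
  exact mem_support_iff.1 he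

lemma T_C_mul {a : Fin 3 →₀ ℕ} {F : S3} (h : SuppLe F a) (c : ℂ) :
    T a (C c * F) = C c * T a F := by
  have h' : SuppLe (C c * F) a := by
    intro e he
    apply h
    rw [mem_support_iff] at he ⊢
    rw [coeff_C_mul] at he
    exact fun h0 => he (by rw [h0, mul_zero])
  ext x
  rw [coeff_T h', coeff_C_mul, coeff_C_mul, coeff_T h]
  split_ifs <;> simp

lemma homog_degree {F : S3} {d : ℕ} (hF : F.IsHomogeneous d) {e : Fin 3 →₀ ℕ}
    (he : e ∈ F.support) : e 0 + e 1 + e 2 = d := by
  rw [← deg3]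
  by_contra h
  exact (mem_support_iff.1 he) (hF.coeff_eq_zero h)

lemma isHomogeneous_of {F : S3} {d : ℕ} (h : ∀ e ∈ F.support, e 0 + e 1 + e 2 = d) :
    F.IsHomogeneous d := by
  rw [F.as_sum]
  exact IsHomogeneous.sum _ _ _ fun e he => isHomogeneous_monomial _ (by rw [deg3, h e he])

lemma T_homog {a : Fin 3 →₀ ℕ} {F : S3} {d : ℕ} (hF : F.IsHomogeneous d) (h : SuppLe F a) :
    (T a F).IsHomogeneous (a 0 + a 1 + a 2 - d) := by
  apply isHomogeneous_of
  intro e he
  have h1 := T_suppLe h e he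
  have h2 := mem_supp_T (T_suppLe h) he
  rw [T_T h] at h2
  have h3 := homog_degree hF h2
  simp only [Finsupp.tsub_apply] at h3
  have := h1 0
  have := h1 1
  have := h1 2
  omega

lemma sg_T {a : Fin 3 →₀ ℕ} {F : S3} {d : ℕ} (hF : F.IsHomogeneous d) (h : SuppLe F a)
    (ha : ∀ i, a i ≤ d) :
    sg F = monomial (fs (d - a 0) (d - a 1) (d - a 2)) 1 * T a F := by
  conv_lhs => rw [F.as_sum]
  unfold T
  rw [map_sum, Finset.mul_sum]
  refine Finset.sum_congr rfl fun e he => ?_
  rw [sg_monomial, monomial_mul, one_mul]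
  refine congrArg (fun z => (monomial z (coeff e F) : S3)) ?_
  have h1 := homog_degree hF he
  have h2 := h e he
  have := h2 0
  have := h2 1
  have := h2 2
  have := ha 0
  have := ha 1
  have := ha 2
  apply ext3 <;> simp only [Finsupp.add_apply, Finsupp.tsub_apply, fs_zero, fs_one, fs_two] <;> omega

/-! ### vanishing at the coordinate points -/

/-- the coordinate points -/
noncomputable def ept (i : Fin 3) : Fin 3 → ℂ := fun j => if j = i then 1 else 0

lemma degree_erase (i : Fin 3) (e : Fin 3 →₀ ℕ) : (e.erase i).degree + e i = e.degree := by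
  rw [deg3, deg3]
  fin_cases i <;> simp <;> omega

lemma crit_forward (i : Fin 3) {F : S3} {d k : ℕ} (hF : F.IsHomogeneous d)
    (h : F ∈ ptIdeal (ept i) ^ k) : ∀ e ∈ F.support, e i + k ≤ d := by
  classical
  intro e he
  set g : S3 →ₐ[ℂ] S3 := aeval (fun j => if j = i then (1 : S3) else X j) with hg
  have h1 : g F ∈ ptIdeal (0 : Fin 3 → ℂ) ^ k := by
    refine mem_pow_of_hom g 0 _ (fun j => ?_) h
    rw [hg, aeval_X]
    unfold ept
    split_ifs <;> simp
  rw [ptIdeal_zero, mem_pow_idealOfVars_iff] at h1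
  have h2 : g F = ∑ e' ∈ F.support, monomial (e'.erase i) (coeff e' F) := by
    conv_lhs => rw [F.as_sum]
    rw [map_sum]
    refine Finset.sum_congr rfl fun e' _ => ?_
    rw [hg, aeval_monomial, monomial_eq, algebraMap_eq]
    congr 1
    rw [Finsupp.prod_fintype _ _ (fun i => pow_zero _), Finsupp.prod_fintype _ _ (fun i => pow_zero _)]
    refine Finset.prod_congr rfl fun j _ => ?_
    by_cases hj : j = i
    · rw [if_pos hj, one_pow, hj, Finsupp.erase_same, pow_zero]
    · rw [if_neg hj, Finsupp.erase_ne hj]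
  have h3 : coeff (e.erase i) (g F) = coeff e F := by
    rw [h2, coeff_sum]
    rw [Finset.sum_eq_single_of_mem e he]
    · rw [coeff_monomial, if_pos rfl]
    · intro e' he' hne
      rw [coeff_monomial, if_neg]
      intro h'
      apply hne
      have d1 := homog_degree hF he
      have d2 := homog_degree hF he'
      rw [← deg3] at d1 d2
      have e1 := degree_erase i e
      have e2 := degree_erase i e'
      rw [h'] at e2
      have hi : e' i = e i := by omega
      ext j
      by_cases hj : j = i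
      · rw [hj, hi]
      · have := DFunLike.congr_fun h' j
        rwa [Finsupp.erase_ne hj, Finsupp.erase_ne hj] at this
  have h4 := h1 (e.erase i) (by rw [mem_support_iff, h3]; exact mem_support_iff.1 he)
  have d1 := homog_degree hF he
  rw [← deg3] at d1
  have e1 := degree_erase i e
  omega

lemma crit_backward (i : Fin 3) {F : S3} {d k : ℕ} (hF : F.IsHomogeneous d)
    (h : ∀ e ∈ F.support, e i + k ≤ d) : F ∈ ptIdeal (ept i) ^ k := by
  classical
  rw [F.as_sum]
  refine Ideal.sum_mem _ fun e he => ?_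
  have h1 : (monomial e (coeff e F) : S3) =
      monomial (Finsupp.single i (e i)) 1 * monomial (e.erase i) (coeff e F) := by
    rw [monomial_mul, one_mul]
    exact congrArg (fun z => (monomial z (coeff e F) : S3)) (Finsupp.single_add_erase i e).symm
  rw [h1]
  refine Ideal.mul_mem_left _ _ ?_
  set g : S3 →ₐ[ℂ] S3 := aeval (fun j => if j = i then (0 : S3) else X j) with hg
  have h2 : g (monomial (e.erase i) (coeff e F)) = monomial (e.erase i) (coeff e F) := by
    rw [hg, aeval_monomial, monomial_eq, algebraMap_eq]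
    congr 1
    rw [Finsupp.prod_fintype _ _ (fun i => pow_zero _), Finsupp.prod_fintype _ _ (fun i => pow_zero _)]
    refine Finset.prod_congr rfl fun j _ => ?_
    by_cases hj : j = i
    · rw [if_pos hj, hj, Finsupp.erase_same, pow_zero, pow_zero]
    · rw [if_neg hj]
  rw [← h2]
  refine mem_pow_of_hom g (ept i) 0 (fun j => ?_) ?_
  · rw [hg, aeval_X]
    unfold ept
    split_ifs with hj <;> simp [hj]
  · rw [ptIdeal_zero, mem_pow_idealOfVars_iff]
    intro x hx
    have : x = e.erase i := by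
      by_contra hne
      rw [mem_support_iff, coeff_monomial, if_neg (Ne.symm hne)] at hx
      exact hx rfl
    rw [this]
    have d1 := homog_degree hF he
    rw [← deg3] at d1
    have e1 := degree_erase i e
    have := h e he
    omega

/-! ### nice forms -/

structure Nice (F : S3) (d : ℕ) (a : Fin 3 →₀ ℕ) : Prop where
  hom : F.IsHomogeneous d
  le : SuppLe F a
  ale : ∀ i, a i ≤ d
  tight : ∀ i, ∃ e ∈ F.support, e i = a i
  free : ∀ i, ∃ e ∈ F.support, e i = 0

lemma Nice.T {F : S3} {d : ℕ} {a : Fin 3 →₀ ℕ} (h : Nice F d a) :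
    Nice (T a F) (a 0 + a 1 + a 2 - d) a := by
  refine ⟨T_homog h.hom h.le, T_suppLe h.le, fun i => ?_, fun i => ?_, fun i => ?_⟩
  · obtain ⟨e, he, h0⟩ := h.free i
    have h1 := homog_degree h.hom he
    have h2 := h.le e he
    have := h2 0
    have := h2 1
    have := h2 2
    fin_cases i <;> simp at h0 ⊢ <;> omega
  · obtain ⟨e, he, h0⟩ := h.free i
    exact ⟨a - e, mem_supp_T h.le he, by rw [Finsupp.tsub_apply, h0, Nat.sub_zero]⟩
  · obtain ⟨e, he, h0⟩ := h.tight i
    exact ⟨a - e, mem_supp_T h.le he, by rw [Finsupp.tsub_apply, h0, Nat.sub_self]⟩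

lemma Nice.deg {F : S3} {d : ℕ} {a : Fin 3 →₀ ℕ} (h : Nice F d a) :
    a 0 + a 1 + a 2 - (a 0 + a 1 + a 2 - d) = d := by
  obtain ⟨e, he, _⟩ := h.free 0
  have h1 := homog_degree h.hom he
  have h2 := h.le e he
  have := h2 0
  have := h2 1
  have := h2 2
  omega

lemma Nice.ne_zero {F : S3} {d : ℕ} {a : Fin 3 →₀ ℕ} (h : Nice F d a) : F ≠ 0 := by
  obtain ⟨e, he, _⟩ := h.free 0
  intro h0
  rw [h0] at he
  simp at he

lemma Nice.not_dvd {F : S3} {d : ℕ} {a : Fin 3 →₀ ℕ} (h : Nice F d a) (i : Fin 3) :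
    ¬ (X i : S3) ∣ F := by
  rintro ⟨G, hG⟩
  obtain ⟨e, he, h0⟩ := h.free i
  rw [mem_support_iff, hG, coeff_X_mul'] at he
  rw [if_neg] at he
  · exact he rfl
  · rw [Finsupp.mem_support_iff, not_not]
    exact h0

lemma sg_sg_homog {A : S3} {n : ℕ} (hA : A.IsHomogeneous n) :
    sg (sg A) = (X 0 * X 1 * X 2) ^ n * A := by
  conv_lhs => rw [A.as_sum]
  conv_rhs => rw [A.as_sum]
  rw [map_sum, map_sum, Finset.mul_sum]
  refine Finset.sum_congr rfl fun e he => ?_
  rw [sg_monomial, sg_monomial, mono3, mono3]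
  have h1 := homog_degree hA he
  simp only [fs_zero, fs_one, fs_two]
  rw [← h1]
  ring

lemma dvd_top {F A B : S3} {d : ℕ} (hF : F.IsHomogeneous d) (h : F = A * B) (h0 : F ≠ 0) :
    F = homogeneousComponent A.totalDegree A * homogeneousComponent B.totalDegree B := by
  classical
  have hA : A ≠ 0 := by rintro rfl; simp at h; exact h0 h
  have hB : B ≠ 0 := by rintro rfl; simp at h; exact h0 h
  have hd : A.totalDegree + B.totalDegree = d := by
    rw [← totalDegree_mul_of_isDomain hA hB, ← h, hF.totalDegree h0]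
  ext x
  by_cases hx : x.degree = d
  · rw [h, coeff_mul, coeff_mul]
    refine Finset.sum_congr rfl fun y hy => ?_
    rw [Finset.HasAntidiagonal.mem_antidiagonal] at hy
    have hxy : y.1.degree + y.2.degree = d := by
      rw [← hx, ← hy, map_add]
    rw [coeff_homogeneousComponent, coeff_homogeneousComponent]
    by_cases h1 : y.1.degree = A.totalDegree
    · have h2 : y.2.degree = B.totalDegree := by omega
      rw [if_pos h1, if_pos h2]
    · rw [if_neg h1, zero_mul]
      rcases lt_or_gt_of_ne h1 with h2 | h2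
      · have h3 : B.totalDegree < y.2.degree := by omega
        rw [coeff_eq_zero_of_totalDegree_lt (f := B) h3, mul_zero]
      · rw [coeff_eq_zero_of_totalDegree_lt (f := A) h2, zero_mul]
  · rw [hF.coeff_eq_zero hx]
    symm
    apply IsHomogeneous.coeff_eq_zero _ hx
    rw [← hd]
    exact (homogeneousComponent_isHomogeneous _ _).mul (homogeneousComponent_isHomogeneous _ _)

end Pool.Agent.Lib.MP_d885f5
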