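import Mathlib
import Pool.Agent.Lib.MP_d885f5.Cremona

open MvPolynomial

namespace Pool.Agent.Lib.MP_d885f5

lemma isUnit_of_dvd_pow {B : S3} {n : ℕ} (h : B ∣ (X 0 * X 1 * X 2) ^ n)
    (hB : ∀ i, ¬ (X i : S3) ∣ B) : IsUnit B := by
  have h1 : ∀ i, IsRelPrime B (X i : S3) := fun i =>
    ((X_prime (R := ℂ) (i := i)).irreducible.isRelPrime_iff_not_dvd.2 (hB i)).symm
  have h2 : IsRelPrime B ((X 0 * X 1 * X 2) ^ n : S3) :=
    (((h1 0).mul_right (h1 1)).mul_right (h1 2)).pow_right
  exact h2.isUnit_of_dvd h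

/-- factors of the transform (homogeneous case) -/
lemma unit_factor {F A B : S3} {d n : ℕ} {a : Fin 3 →₀ ℕ} (h : Nice F d a)
    (hA : A.IsHomogeneous n) (hT : T a F = A * B) (hdvd : F ∣ sg A) : IsUnit B := by
  obtain ⟨H, hH⟩ := hdvd
  have h1 := sg_sg_homog hA
  rw [hH, map_mul, sg_T h.hom h.le h.ale, hT] at h1
  have hA0 : A ≠ 0 := by
    rintro rfl
    rw [zero_mul] at hT
    exact h.T.ne_zero hT
  have h2 : (monomial (fs (d - a 0) (d - a 1) (d - a 2)) 1 * B * sg H) =
      (X 0 * X 1 * X 2 : S3) ^ n := by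
    apply mul_right_cancel₀ hA0
    rw [← h1]
    ring
  apply isUnit_of_dvd_pow (n := n)
  · rw [← h2]
    exact ⟨monomial (fs (d - a 0) (d - a 1) (d - a 2)) 1 * sg H, by ring⟩
  · intro i hi
    apply h.T.not_dvd i
    rw [hT]
    exact hi.mul_left A

lemma irreducible_T {F : S3} {d : ℕ} {a : Fin 3 →₀ ℕ} (h : Nice F d a) (hF : Irreducible F) :
    Irreducible (T a F) := by
  have hT := h.T
  refine ⟨?_, fun A B hAB => ?_⟩
  · intro hu
    -- the transform would be a constant, hence so is F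
    obtain ⟨e, he, h0⟩ := hT.tight 0
    obtain ⟨e1, he1, h1⟩ := hT.tight 1
    obtain ⟨e2, he2, h2⟩ := hT.tight 2
    have hdeg : (T a F).totalDegree = 0 := by
      rw [MvPolynomial.isUnit_iff_totalDegree_of_isReduced] at hu
      exact hu.2
    have hd0 : a 0 + a 1 + a 2 - d = 0 := by
      rw [← hdeg, hT.hom.totalDegree hT.ne_zero]
    have k0 := homog_degree hT.hom he
    have k1 := homog_degree hT.hom he1
    have k2 := homog_degree hT.hom he2
    have ha : a 0 = 0 ∧ a 1 = 0 ∧ a 2 = 0 := by omega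
    have hd : d = 0 := by
      obtain ⟨e, he, _⟩ := h.free 0
      have q1 := homog_degree h.hom he
      have q2 := h.le e he
      have := q2 0
      have := q2 1
      have := q2 2
      omega
    apply hF.not_isUnit
    rw [MvPolynomial.isUnit_iff_totalDegree_of_isReduced]
    have h3 := h.hom
    rw [hd] at h3
    have h4 : F = C (coeff 0 F) := by
      apply (totalDegree_eq_zero_iff_eq_C).1
      exact h3.totalDegree h.ne_zero
    constructor
    · rw [isUnit_iff_ne_zero]
      intro h5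
      rw [h5, C_0] at h4
      exact h.ne_zero h4
    · exact h3.totalDegree h.ne_zero
  · have hne := hT.ne_zero
    have htop := dvd_top hT.hom hAB hne
    set A' := homogeneousComponent A.totalDegree A with hA'
    set B' := homogeneousComponent B.totalDegree B with hB'
    have hA0 : A ≠ 0 := by rintro rfl; rw [zero_mul] at hAB; exact hne hAB
    have hB0 : B ≠ 0 := by rintro rfl; rw [mul_zero] at hAB; exact hne hAB
    have hAh : A'.IsHomogeneous A.totalDegree := homogeneousComponent_isHomogeneous _ _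
    have hBh : B'.IsHomogeneous B.totalDegree := homogeneousComponent_isHomogeneous _ _
    have hA'0 : A' ≠ 0 := by intro h0; rw [h0, zero_mul] at htop; exact hne htop
    have hB'0 : B' ≠ 0 := by intro h0; rw [h0, mul_zero] at htop; exact hne htop
    have key : F ∣ sg A' ∨ F ∣ sg B' := by
      apply hF.prime.dvd_or_dvd
      rw [← map_mul, ← htop, sg_T hT.hom hT.le hT.ale, T_T h.le]
      exact dvd_mul_left _ _
    have unit_of : ∀ G : S3, G ≠ 0 → IsUnit (homogeneousComponent G.totalDegree G) → IsUnit G := by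
      intro G hG0 hG
      rw [MvPolynomial.isUnit_iff_totalDegree_of_isReduced] at hG
      have h3 : homogeneousComponent G.totalDegree G ≠ 0 := by
        intro h0
        rw [h0] at hG
        simpa using hG.1
      have h4 : G.totalDegree = 0 := by
        rw [← hG.2, (homogeneousComponent_isHomogeneous G.totalDegree G).totalDegree h3]
      rw [MvPolynomial.isUnit_iff_totalDegree_of_isReduced]
      refine ⟨?_, h4⟩
      rw [totalDegree_eq_zero_iff_eq_C] at h4
      rw [isUnit_iff_ne_zero]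
      intro h5
      rw [h5, C_0] at h4
      exact hG0 h4
    rcases key with hk | hk
    · right
      exact unit_of B hB0 (unit_factor h hAh htop hk)
    · left
      exact unit_of A hA0 (unit_factor h hBh (by rw [htop, mul_comm]) hk)

/-! ### multiplicities away from the coordinate triangle -/

lemma eval_sg (q : Fin 3 → ℂ) (i : Fin 3) :
    eval q (sg (X i)) = ![q 1 * q 2, q 0 * q 2, q 0 * q 1] i := by
  fin_cases i <;> simp [sg]

lemma mult_T {F : S3} {d k : ℕ} {a : Fin 3 →₀ ℕ} (hhom : F.IsHomogeneous d) (hle : SuppLe F a)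
    (hale : ∀ i, a i ≤ d) {q q' : Fin 3 → ℂ}
    {c : ℂ} (hc : c ≠ 0) (hq : ∀ i, q i ≠ 0) (hqq : ∀ i, eval q (sg (X i)) = c * q' i)
    (hF : F ∈ ptIdeal q' ^ k) : T a F ∈ ptIdeal q ^ k := by
  have h1 : F ∈ ptIdeal (fun i => c * q' i) ^ k := by
    apply mem_pow_scale (c := c⁻¹) hhom (inv_ne_zero hc)
    have e : (fun i => c⁻¹ * (c * q' i)) = q' := by
      funext i
      field_simp
    rw [e]
    exact hF
  have h2 : sg F ∈ ptIdeal q ^ k := mem_pow_of_hom sg q _ hqq h1
  rw [sg_T hhom hle hale] at h2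
  refine mem_pow_of_mul ?_ h2
  rw [mono3]
  simp [hq]

lemma X_dvd_iff' (i : Fin 3) (F : S3) : (X i : S3) ∣ F ↔ ∀ e ∈ F.support, e i ≠ 0 := by
  have h := mem_ideal_span_X_image (σ := Fin 3) (R := ℂ) (x := F) (s := {i})
  rw [Set.image_singleton, Ideal.mem_span_singleton] at h
  simpa using h

/-! ### the nine points -/

/-- the nine base points: `s = 0` the coordinate points, `s = 1, 2` the points with all
coordinates `1` except for one which is `w ^ s`. -/
noncomputable def pt (w : ℂ) (s i : Fin 3) : Fin 3 → ℂ := fun j =>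
  if s = 0 then (if j = i then 1 else 0) else (if j = i then w ^ (s : ℕ) else 1)

lemma pt_zero (w : ℂ) (i : Fin 3) : pt w 0 i = ept i := by
  funext j
  simp [pt, ept]

/-- three further points -/
noncomputable def rp (w : ℂ) (i : Fin 3) : Fin 3 → ℂ := ![1, w ^ (i : ℕ), w ^ (2 * (i : ℕ))]

structure Good (w : ℂ) (F : S3) (d : ℕ) (m : Fin 3 → Fin 3 → ℕ) : Prop where
  hom : F.IsHomogeneous d
  irr : Irreducible F
  mem : ∀ s i, F ∈ ptIdeal (pt w s i) ^ (m s i)
  nmem : ∀ s i, F ∉ ptIdeal (pt w s i) ^ (m s i + 1)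
  uniq : ∀ G : S3, G.IsHomogeneous d → (∀ s i, G ∈ ptIdeal (pt w s i) ^ (m s i)) →
    ∃ c : ℂ, G = C c * F
  nz : ∀ i, eval (rp w i) F ≠ 0

section
variable {w : ℂ} (hw : w ^ 2 + w + 1 = 0)
include hw

lemma w_cube : w ^ 3 = 1 := by linear_combination (w - 1) * hw

lemma w_ne_zero : w ≠ 0 := by
  rintro rfl
  norm_num at hw

lemma w_ne_one : w ≠ 1 := by
  rintro rfl
  norm_num at hw

lemma pt_sg_one (i j : Fin 3) : eval (pt w 1 i) (sg (X j)) = w * pt w 2 i j := by
  have h3 := w_cube hw
  rw [eval_sg]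
  fin_cases i <;> fin_cases j <;> simp [pt] <;> linear_combination -h3

lemma pt_sg_two (i j : Fin 3) : eval (pt w 2 i) (sg (X j)) = w ^ 2 * pt w 1 i j := by
  have h3 := w_cube hw
  rw [eval_sg]
  fin_cases i <;> fin_cases j <;> simp [pt] <;> linear_combination -h3

lemma pt_ne_zero {s : Fin 3} (hs : s ≠ 0) (i j : Fin 3) : pt w s i j ≠ 0 := by
  unfold pt
  rw [if_neg hs]
  split_ifs
  · exact pow_ne_zero _ (w_ne_zero hw)
  · exact one_ne_zero

end

end Pool.Agent.Lib.MP_d885f5
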