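import Mathlib
import Pool.Agent.Lib.MP_d885f5.Step

open MvPolynomial

namespace Pool.Agent.Lib.MP_d885f5

lemma Good.ne_zero {w : ℂ} {F : S3} {d : ℕ} {m : Fin 3 → Fin 3 → ℕ} (h : Good w F d m) :
    F ≠ 0 := h.irr.ne_zero

lemma Good.le_d {w : ℂ} {F : S3} {d : ℕ} {m : Fin 3 → Fin 3 → ℕ} (h : Good w F d m) (i : Fin 3) :
    m 0 i ≤ d := by
  have h1 := h.mem 0 i
  rw [pt_zero] at h1
  obtain ⟨e, he⟩ := support_nonempty.2 h.ne_zero
  have := crit_forward i h.hom h1 e he
  omega

/-- the exponent bound attached to a good form -/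
noncomputable def av (d : ℕ) (m : Fin 3 → Fin 3 → ℕ) : Fin 3 →₀ ℕ :=
  fs (d - m 0 0) (d - m 0 1) (d - m 0 2)

lemma av_apply (d : ℕ) (m : Fin 3 → Fin 3 → ℕ) (i : Fin 3) : av d m i = d - m 0 i := by
  fin_cases i <;> rfl

lemma Good.nice {w : ℂ} {F : S3} {d : ℕ} {m : Fin 3 → Fin 3 → ℕ} (h : Good w F d m)
    (hX : ∀ i, ¬ (X i : S3) ∣ F) : Nice F d (av d m) := by
  refine ⟨h.hom, ?_, ?_, ?_, ?_⟩
  · intro e he i
    have h1 := h.mem 0 i
    rw [pt_zero] at h1
    have := crit_forward i h.hom h1 e he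
    rw [av_apply]
    omega
  · intro i
    rw [av_apply]
    omega
  · intro i
    by_contra hc
    push Not at hc
    apply h.nmem 0 i
    rw [pt_zero]
    apply crit_backward i h.hom
    intro e he
    have h1 := h.mem 0 i
    rw [pt_zero] at h1
    have h2 := crit_forward i h.hom h1 e he
    have h3 := hc e he
    rw [av_apply] at h3
    omega
  · intro i
    have := hX i
    rw [X_dvd_iff'] at this
    push Not at this
    exact this

lemma rp_sg0 {w : ℂ} (j : Fin 3) : eval (rp w 0) (sg (X j)) = rp w 0 j := by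
  rw [eval_sg]
  fin_cases j <;> simp [rp]

lemma rp_sg1 {w : ℂ} (hw : w ^ 2 + w + 1 = 0) (j : Fin 3) :
    eval (rp w 1) (sg (X j)) = rp w 2 j := by
  have h3 := w_cube hw
  rw [eval_sg]
  fin_cases j
  · simp [rp]; linear_combination h3
  · simp [rp]
  · simp [rp]; linear_combination -w * h3

lemma rp_sg2 {w : ℂ} (hw : w ^ 2 + w + 1 = 0) (j : Fin 3) :
    eval (rp w 2) (sg (X j)) = rp w 1 j := by
  have h3 := w_cube hw
  rw [eval_sg]
  fin_cases j
  · simp [rp]; linear_combination (w ^ 3 + 1) * h3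
  · simp [rp]; linear_combination w * h3
  · simp [rp]


/-- new multiplicities after the quadratic transformation -/
def mC (d : ℕ) (m : Fin 3 → Fin 3 → ℕ) : Fin 3 → Fin 3 → ℕ
  | 0, 0 => d - m 0 1 - m 0 2
  | 0, 1 => d - m 0 0 - m 0 2
  | 0, 2 => d - m 0 0 - m 0 1
  | 1, i => m 2 i
  | 2, i => m 1 i

lemma Good.cremona {w : ℂ} (hw : w ^ 2 + w + 1 = 0) {F : S3} {d : ℕ} {m : Fin 3 → Fin 3 → ℕ}
    (h : Good w F d m) (hX : ∀ i, ¬ (X i : S3) ∣ F) :
    (m 0 1 + m 0 2 ≤ d ∧ m 0 0 + m 0 2 ≤ d ∧ m 0 0 + m 0 1 ≤ d ∧ m 0 0 + m 0 1 + m 0 2 ≤ 2 * d) ∧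
    Good w (T (av d m) F) (2 * d - m 0 0 - m 0 1 - m 0 2) (mC d m) := by
  have hN := h.nice hX
  have hNT := hN.T
  have hle0 := h.le_d 0
  have hle1 := h.le_d 1
  have hle2 := h.le_d 2
  have a0 := av_apply d m 0
  have a1 := av_apply d m 1
  have a2 := av_apply d m 2
  obtain ⟨e0, he0, h00⟩ := hN.free 0
  obtain ⟨e1, he1, h11⟩ := hN.free 1
  obtain ⟨e2, he2, h22⟩ := hN.free 2
  have k0 := homog_degree h.hom he0
  have k1 := homog_degree h.hom he1
  have k2 := homog_degree h.hom he2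
  have l0 := hN.le e0 he0
  have l1 := hN.le e1 he1
  have l2 := hN.le e2 he2
  have := l0 1
  have := l0 2
  have := l1 0
  have := l1 2
  have := l2 0
  have := l2 1
  have i1 : m 0 1 + m 0 2 ≤ d := by omega
  have i2 : m 0 0 + m 0 2 ≤ d := by omega
  have i3 : m 0 0 + m 0 1 ≤ d := by omega
  have i4 : m 0 0 + m 0 1 + m 0 2 ≤ 2 * d := by omega
  have hd' : av d m 0 + av d m 1 + av d m 2 - d = 2 * d - m 0 0 - m 0 1 - m 0 2 := by omega
  have hmC : ∀ i, mC d m 0 i = (2 * d - m 0 0 - m 0 1 - m 0 2) - av d m i := by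
    intro i
    fin_cases i
    · show d - m 0 1 - m 0 2 = _
      rw [show av d m (⟨0, by norm_num⟩ : Fin 3) = d - m 0 0 from a0]; omega
    · show d - m 0 0 - m 0 2 = _
      rw [show av d m (⟨1, by norm_num⟩ : Fin 3) = d - m 0 1 from a1]; omega
    · show d - m 0 0 - m 0 1 = _
      rw [show av d m (⟨2, by norm_num⟩ : Fin 3) = d - m 0 2 from a2]; omega
  rw [hd'] at hNT
  refine ⟨⟨i1, i2, i3, i4⟩, hNT.hom, irreducible_T hN h.irr, ?_, ?_, ?_, ?_⟩
  · -- membership
    intro s i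
    fin_cases s
    · show T (av d m) F ∈ ptIdeal (pt w 0 i) ^ (mC d m 0 i)
      rw [pt_zero, hmC i]
      apply crit_backward i hNT.hom
      intro e he
      have q1 := hNT.le e he i
      have q2 := hNT.ale i
      omega
    · show T (av d m) F ∈ ptIdeal (pt w 1 i) ^ (m 2 i)
      exact mult_T h.hom hN.le hN.ale (w_ne_zero hw) (pt_ne_zero hw (by decide) i)
        (pt_sg_one hw i) (h.mem 2 i)
    · show T (av d m) F ∈ ptIdeal (pt w 2 i) ^ (m 1 i)
      exact mult_T h.hom hN.le hN.ale (pow_ne_zero 2 (w_ne_zero hw)) (pt_ne_zero hw (by decide) i)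
        (pt_sg_two hw i) (h.mem 1 i)
  · intro s i hmem
    fin_cases s
    · change T (av d m) F ∈ ptIdeal (pt w 0 i) ^ (mC d m 0 i + 1) at hmem
      rw [pt_zero, hmC i] at hmem
      obtain ⟨e, he, hei⟩ := hNT.tight i
      have q1 := crit_forward i hNT.hom hmem e he
      have q2 := hNT.ale i
      omega
    · change T (av d m) F ∈ ptIdeal (pt w 1 i) ^ (m 2 i + 1) at hmem
      apply h.nmem 2 i
      have := mult_T hNT.hom hNT.le hNT.ale (pow_ne_zero 2 (w_ne_zero hw))
        (pt_ne_zero hw (by decide) i) (pt_sg_two hw i) hmem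
      rwa [T_T hN.le] at this
    · change T (av d m) F ∈ ptIdeal (pt w 2 i) ^ (m 1 i + 1) at hmem
      apply h.nmem 1 i
      have := mult_T hNT.hom hNT.le hNT.ale (w_ne_zero hw)
        (pt_ne_zero hw (by decide) i) (pt_sg_one hw i) hmem
      rwa [T_T hN.le] at this
  · intro G hG hGm
    have hGle : SuppLe G (av d m) := by
      intro e he i
      have h1 := hGm 0 i
      rw [pt_zero, hmC i] at h1
      have q1 := crit_forward i hG h1 e he
      have q2 := hNT.ale i
      omega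
    have hG'hom : (T (av d m) G).IsHomogeneous d := by
      have := T_homog hG hGle
      rw [← hd', hN.deg] at this
      exact this
    obtain ⟨c, hc⟩ := h.uniq (T (av d m) G) hG'hom (by
      intro s i
      fin_cases s
      · show T (av d m) G ∈ ptIdeal (pt w 0 i) ^ (m 0 i)
        rw [pt_zero]
        apply crit_backward i hG'hom
        intro e he
        have q1 := T_suppLe hGle e he i
        have q2 := h.le_d i
        rw [av_apply] at q1
        omega
      · show T (av d m) G ∈ ptIdeal (pt w 1 i) ^ (m 1 i)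
        exact mult_T hG hGle hNT.ale (w_ne_zero hw) (pt_ne_zero hw (by decide) i)
          (pt_sg_one hw i) (hGm 2 i)
      · show T (av d m) G ∈ ptIdeal (pt w 2 i) ^ (m 2 i)
        exact mult_T hG hGle hNT.ale (pow_ne_zero 2 (w_ne_zero hw)) (pt_ne_zero hw (by decide) i)
          (pt_sg_two hw i) (hGm 1 i))
    refine ⟨c, ?_⟩
    rw [← T_C_mul hN.le, ← hc, T_T hGle]
  · -- nonvanishing
    intro i
    have hsg := sg_T h.hom hN.le hN.ale
    have key : eval (rp w i) (sg F) ≠ 0 := by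
      rw [eval_comp]
      fin_cases i
      · show eval (fun j => eval (rp w 0) (sg (X j))) F ≠ 0
        rw [funext (rp_sg0 (w := w))]
        exact h.nz 0
      · show eval (fun j => eval (rp w 1) (sg (X j))) F ≠ 0
        rw [funext (rp_sg1 hw)]
        exact h.nz 2
      · show eval (fun j => eval (rp w 2) (sg (X j))) F ≠ 0
        rw [funext (rp_sg2 hw)]
        exact h.nz 1
    intro h0
    apply key
    rw [hsg, map_mul, h0, mul_zero]

end Pool.Agent.Lib.MP_d885f5
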