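import Mathlib
import Pool.Agent.Lib.MP_d885f5.Orbit

open MvPolynomial

namespace Pool.Agent.Lib.MP_d885f5

lemma mem_pow_scale' {F : S3} {d k : ℕ} (hF : F.IsHomogeneous d) {q : Fin 3 → ℂ} {c : ℂ}
    (hc : c ≠ 0) (h : F ∈ ptIdeal q ^ k) : F ∈ ptIdeal (fun i => c * q i) ^ k := by
  apply mem_pow_scale (c := c⁻¹) hF (inv_ne_zero hc)
  have e : (fun i => c⁻¹ * (c * q i)) = q := by
    funext i
    field_simp
  rw [e]
  exact h

lemma eval_scale {F : S3} {d : ℕ} (hF : F.IsHomogeneous d) (q : Fin 3 → ℂ) (c : ℂ) :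
    eval (fun i => c * q i) F = c ^ d * eval q F := by
  have h := scaleHom_homog c hF
  have h2 := congrArg (eval q) h
  rw [eval_comp, map_mul, eval_C] at h2
  rw [← h2]
  congr 2
  funext i
  simp [scaleHom]

lemma Good.linear {w : ℂ} {F : S3} {d : ℕ} {m : Fin 3 → Fin 3 → ℕ} (h : Good w F d m)
    (L L' : S3 →ₐ[ℂ] S3) (hLL' : ∀ F, L' (L F) = F) (hL'L : ∀ F, L (L' F) = F)
    (hhom : ∀ j, (L (X j)).IsHomogeneous 1) (hhom' : ∀ j, (L' (X j)).IsHomogeneous 1)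
    (π π' : Fin 3 → Fin 3) (hπ : ∀ s, π (π' s) = s)
    (hpt : ∀ s, ∃ c : ℂ, c ≠ 0 ∧ ∀ i j, eval (pt w s i) (L (X j)) = c * pt w (π s) i j)
    (hpt' : ∀ s, ∃ c : ℂ, c ≠ 0 ∧ ∀ i j, eval (pt w s i) (L' (X j)) = c * pt w (π' s) i j)
    (hπ' : ∀ s, π' (π s) = s)
    (hrp : ∀ i, ∃ c : ℂ, c ≠ 0 ∧ ∀ j, eval (rp w i) (L (X j)) = c * rp w i j) :
    Good w (L F) d (fun s i => m (π s) i) := by
  have homL : ∀ G : S3, ∀ n, G.IsHomogeneous n → (L G).IsHomogeneous n := by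
    intro G n hG
    have := hG.aeval (fun j => L (X j)) (n := 1) hhom
    rw [one_mul] at this
    have e : (MvPolynomial.aeval fun j => L (X j)) = L := by
      apply MvPolynomial.algHom_ext
      intro i
      simp
    rwa [e] at this
  have homL' : ∀ G : S3, ∀ n, G.IsHomogeneous n → (L' G).IsHomogeneous n := by
    intro G n hG
    have := hG.aeval (fun j => L' (X j)) (n := 1) hhom'
    rw [one_mul] at this
    have e : (MvPolynomial.aeval fun j => L' (X j)) = L' := by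
      apply MvPolynomial.algHom_ext
      intro i
      simp
    rwa [e] at this
  have memL : ∀ G : S3, ∀ n, G.IsHomogeneous n → ∀ s i k, G ∈ ptIdeal (pt w (π s) i) ^ k →
      L G ∈ ptIdeal (pt w s i) ^ k := by
    intro G n hG s i k hk
    obtain ⟨c, hc, hcc⟩ := hpt s
    exact mem_pow_of_hom L _ _ (hcc i) (mem_pow_scale' hG hc hk)
  have memL' : ∀ G : S3, ∀ n, G.IsHomogeneous n → ∀ s i k, G ∈ ptIdeal (pt w (π' s) i) ^ k →
      L' G ∈ ptIdeal (pt w s i) ^ k := by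
    intro G n hG s i k hk
    obtain ⟨c, hc, hcc⟩ := hpt' s
    exact mem_pow_of_hom L' _ _ (hcc i) (mem_pow_scale' hG hc hk)
  refine ⟨homL F d h.hom, ?_, ?_, ?_, ?_, ?_⟩
  · let e : S3 ≃ₐ[ℂ] S3 := AlgEquiv.ofAlgHom L L' (AlgHom.ext hL'L) (AlgHom.ext hLL')
    exact (MulEquiv.irreducible_iff e).2 h.irr
  · intro s i
    exact memL F d h.hom s i _ (h.mem (π s) i)
  · intro s i hmem
    apply h.nmem (π s) i
    rw [← hLL' F]
    apply memL' (L F) d (homL F d h.hom) (π s) i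
    rw [hπ' s]
    exact hmem
  · intro G hG hGm
    obtain ⟨c, hc⟩ := h.uniq (L' G) (homL' G d hG) (by
      intro s i
      apply memL' G d hG s i
      have := hGm (π' s) i
      rwa [hπ s] at this)
    refine ⟨c, ?_⟩
    rw [← hL'L G, hc, map_mul, algHom_C, algebraMap_eq]
  · intro i
    obtain ⟨c, hc, hcc⟩ := hrp i
    rw [eval_comp]
    rw [funext hcc, eval_scale h.hom]
    exact mul_ne_zero (pow_ne_zero _ hc) (h.nz i)

/-- the linear map `X_i ↦ X_i + c (X_0 + X_1 + X_2)` -/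
noncomputable def Lc (c : ℂ) : S3 →ₐ[ℂ] S3 := aeval fun i => X i + C c * (X 0 + X 1 + X 2)

lemma Lc_comp {c c' : ℂ} (h : c + c' + 3 * c * c' = 0) (F : S3) : Lc c' (Lc c F) = F := by
  have e : (Lc c').comp (Lc c) = AlgHom.id ℂ S3 := by
    apply MvPolynomial.algHom_ext
    intro i
    have h2 : (C (c + c' + 3 * c * c') : S3) = 0 := by rw [h, C_0]
    simp only [map_add, map_mul] at h2
    simp only [Lc, AlgHom.comp_apply, aeval_X, map_add, map_mul, algHom_C, algebraMap_eq,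
      AlgHom.id_apply]
    have h3 : (C (3 : ℂ) : S3) = 3 := by
      exact map_ofNat C 3
    rw [h3] at h2
    linear_combination (X 0 + X 1 + X 2) * h2
  exact DFunLike.congr_fun e F

lemma Lc_hom (c : ℂ) (j : Fin 3) : (Lc c (X j)).IsHomogeneous 1 := by
  unfold Lc
  rw [aeval_X]
  refine (isHomogeneous_X _ _).add ?_
  have : ((0 : ℕ) + 1) = 1 := rfl
  exact (isHomogeneous_C _ c).mul
    (((isHomogeneous_X ℂ 0).add (isHomogeneous_X ℂ 1)).add (isHomogeneous_X ℂ 2))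

lemma eval_Lc (c : ℂ) (q : Fin 3 → ℂ) (j : Fin 3) :
    eval q (Lc c (X j)) = q j + c * (q 0 + q 1 + q 2) := by
  simp [Lc]

/-- `s ↦ s - 1` -/
def pm : Fin 3 → Fin 3
  | 0 => 2
  | 1 => 0
  | 2 => 1

/-- `s ↦ s + 1` -/
def pp : Fin 3 → Fin 3
  | 0 => 1
  | 1 => 2
  | 2 => 0

section
variable {w : ℂ} (hw : w ^ 2 + w + 1 = 0)
include hw

lemma pts_dir : ∀ s, ∃ c : ℂ, c ≠ 0 ∧ ∀ i j,
    eval (pt w s i) (Lc ((w - 1) / 3) (X j)) = c * pt w (pm s) i j := by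
  have h3 := w_cube hw
  have hw0 := w_ne_zero hw
  have hw1 : w - 1 ≠ 0 := sub_ne_zero.2 (w_ne_one hw)
  intro s
  fin_cases s
  · refine ⟨(w - 1) / 3, div_ne_zero hw1 (by norm_num), fun i j => ?_⟩
    rw [eval_Lc]
    fin_cases i <;> fin_cases j <;> simp [pt, pm] <;>
      linear_combination (-1 / 3 : ℂ) * h3 + (1 / 3 : ℂ) * hw
  · refine ⟨w - 1, hw1, fun i j => ?_⟩
    rw [eval_Lc]
    fin_cases i <;> fin_cases j <;> simp [pt, pm] <;> linear_combination (1 / 3 : ℂ) * hw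
  · refine ⟨-w ^ 2, neg_ne_zero.2 (pow_ne_zero _ hw0), fun i j => ?_⟩
    rw [eval_Lc]
    fin_cases i <;> fin_cases j <;> simp [pt, pm] <;>
      first
      | linear_combination (4 / 3 : ℂ) * h3 + (2 / 3 : ℂ) * hw
      | linear_combination (1 / 3 : ℂ) * h3 + (2 / 3 : ℂ) * hw

lemma pts_inv : ∀ s, ∃ c : ℂ, c ≠ 0 ∧ ∀ i j,
    eval (pt w s i) (Lc ((w ^ 2 - 1) / 3) (X j)) = c * pt w (pp s) i j := by
  have h3 := w_cube hw
  have hw0 := w_ne_zero hw
  have hw2 : w ^ 2 - 1 ≠ 0 := by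
    intro h
    apply w_ne_one hw
    linear_combination h3 - w * h
  intro s
  fin_cases s
  · refine ⟨(w ^ 2 - 1) / 3, div_ne_zero hw2 (by norm_num), fun i j => ?_⟩
    rw [eval_Lc]
    fin_cases i <;> fin_cases j <;> simp [pt, pp] <;>
      linear_combination (-1 / 3 : ℂ) * h3 + (1 / 3 : ℂ) * hw
  · refine ⟨-w, neg_ne_zero.2 hw0, fun i j => ?_⟩
    rw [eval_Lc]
    fin_cases i <;> fin_cases j <;> simp [pt, pp] <;>
      first
      | linear_combination (4 / 3 : ℂ) * h3 + (2 / 3 : ℂ) * hw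
      | linear_combination (1 / 3 : ℂ) * h3 + (2 / 3 : ℂ) * hw
  · refine ⟨w ^ 2 - 1, hw2, fun i j => ?_⟩
    rw [eval_Lc]
    fin_cases i <;> fin_cases j <;> simp [pt, pp] <;>
      linear_combination (1 / 3 : ℂ) * hw + (1 / 3 : ℂ) * w * h3

lemma good_delta {F : S3} {d : ℕ} {m : Fin 3 → Fin 3 → ℕ} (h : Good w F d m) :
    Good w (Lc ((w - 1) / 3) F) d (fun s i => m (pm s) i) := by
  have h3 := w_cube hw
  have hw0 := w_ne_zero hw
  have hw1 : w - 1 ≠ 0 := sub_ne_zero.2 (w_ne_one hw)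
  have key : (w - 1) / 3 + (w ^ 2 - 1) / 3 + 3 * ((w - 1) / 3) * ((w ^ 2 - 1) / 3) = 0 := by
    linear_combination (1 / 3 : ℂ) * h3
  refine h.linear (Lc ((w - 1) / 3)) (Lc ((w ^ 2 - 1) / 3)) (Lc_comp key)
    (Lc_comp (by linear_combination key)) (Lc_hom _) (Lc_hom _) pm pp (by decide) (pts_dir hw)
    (pts_inv hw) (by decide) ?_
  intro i
  fin_cases i
  · exact ⟨w, hw0, fun j => by
      rw [eval_Lc]
      fin_cases j <;> simp [rp] <;> ring⟩
  · exact ⟨1, one_ne_zero, fun j => by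
      rw [eval_Lc]
      fin_cases j <;> simp [rp] <;> (right; linear_combination hw)⟩
  · exact ⟨1, one_ne_zero, fun j => by
      rw [eval_Lc]
      fin_cases j <;> simp [rp] <;> (right; linear_combination hw + w * h3)⟩

lemma good_delta_inv {F : S3} {d : ℕ} {m : Fin 3 → Fin 3 → ℕ} (h : Good w F d m) :
    Good w (Lc ((w ^ 2 - 1) / 3) F) d (fun s i => m (pp s) i) := by
  have h3 := w_cube hw
  have hw0 := w_ne_zero hw
  have key : (w - 1) / 3 + (w ^ 2 - 1) / 3 + 3 * ((w - 1) / 3) * ((w ^ 2 - 1) / 3) = 0 := by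
    linear_combination (1 / 3 : ℂ) * h3
  refine h.linear (Lc ((w ^ 2 - 1) / 3)) (Lc ((w - 1) / 3)) (Lc_comp (by linear_combination key))
    (Lc_comp key) (Lc_hom _) (Lc_hom _) pp pm (by decide) (pts_inv hw) (pts_dir hw) (by decide) ?_
  intro i
  fin_cases i
  · exact ⟨w ^ 2, pow_ne_zero _ hw0, fun j => by
      rw [eval_Lc]
      fin_cases j <;> simp [rp] <;> ring⟩
  · exact ⟨1, one_ne_zero, fun j => by
      rw [eval_Lc]
      fin_cases j <;> simp [rp] <;> (right; linear_combination hw)⟩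
  · exact ⟨1, one_ne_zero, fun j => by
      rw [eval_Lc]
      fin_cases j <;> simp [rp] <;> (right; linear_combination hw + w * h3)⟩

/-! ### the starting line -/

/-- multiplicities of the line `X_0 = 0` -/
def m0 : Fin 3 → Fin 3 → ℕ
  | 0, 0 => 0
  | 0, _ => 1
  | _, _ => 0

lemma good_start : Good w (X 0) 1 m0 := by
  have hmem : ∀ i : Fin 3, i ≠ 0 → (X 0 : S3) ∈ ptIdeal (pt w 0 i) := by
    intro i hi
    rw [mem_ptIdeal, eval_X, pt_zero]
    simp [ept, hi.symm]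
  have hsupp : (Finsupp.single 0 1 : Fin 3 →₀ ℕ) ∈ (X 0 : S3).support := by
    rw [support_X]
    exact Finset.mem_singleton_self _
  refine ⟨isHomogeneous_X ℂ 0, X_prime.irreducible, ?_, ?_, ?_, ?_⟩
  · intro s i
    fin_cases s <;> fin_cases i
    all_goals first
      | (show _ ∈ ptIdeal _ ^ 0
         rw [pow_zero, Ideal.one_eq_top]
         exact Submodule.mem_top)
      | (show _ ∈ ptIdeal _ ^ 1
         rw [pow_one]
         exact hmem _ (by decide))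
  · intro s i hm
    fin_cases s
    · fin_cases i
      · change (X 0 : S3) ∈ ptIdeal (pt w 0 0) ^ 1 at hm
        rw [pow_one, mem_ptIdeal, eval_X, pt_zero] at hm
        simp [ept] at hm
      · change (X 0 : S3) ∈ ptIdeal (pt w 0 1) ^ 2 at hm
        rw [pt_zero] at hm
        have := crit_forward 1 (isHomogeneous_X ℂ 0) hm _ hsupp
        simp at this
      · change (X 0 : S3) ∈ ptIdeal (pt w 0 2) ^ 2 at hm
        rw [pt_zero] at hm
        have := crit_forward 2 (isHomogeneous_X ℂ 0) hm _ hsupp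
        simp at this
    · change (X 0 : S3) ∈ ptIdeal (pt w 1 i) ^ 1 at hm
      rw [pow_one, mem_ptIdeal, eval_X] at hm
      exact pt_ne_zero hw (by decide) i 0 hm
    · change (X 0 : S3) ∈ ptIdeal (pt w 2 i) ^ 1 at hm
      rw [pow_one, mem_ptIdeal, eval_X] at hm
      exact pt_ne_zero hw (by decide) i 0 hm
  · intro G hG hGm
    refine ⟨coeff (Finsupp.single 0 1) G, ?_⟩
    have h1 := hGm 0 1
    have h2 := hGm 0 2
    rw [pt_zero] at h1 h2
    have c1 := crit_forward 1 (k := 1) hG h1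
    have c2 := crit_forward 2 (k := 1) hG h2
    ext e
    rw [coeff_C_mul, coeff_X]
    split_ifs with he
    · rw [mul_one, ← he]
    · rw [mul_zero]
      by_contra hne
      have hes : e ∈ G.support := mem_support_iff.2 hne
      have q1 := c1 e hes
      have q2 := c2 e hes
      have q3 := homog_degree hG hes
      apply he
      apply ext3 <;> simp <;> omega
  · intro i
    fin_cases i <;> simp [rp]

omit hw in
lemma Good.not_dvd {F : S3} {d : ℕ} {m : Fin 3 → Fin 3 → ℕ} (h : Good w F d m) (hd : 2 ≤ d)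
    (i : Fin 3) : ¬ (X i : S3) ∣ F := by
  intro hdvd
  have h1 : Associated (X i : S3) F :=
    (X_prime (R := ℂ) (i := i)).irreducible.associated_of_dvd h.irr hdvd
  obtain ⟨u, hu⟩ := h1
  have h2 := MvPolynomial.isUnit_iff_totalDegree_of_isReduced.1 u.isUnit
  have h3 : F.totalDegree = d := h.hom.totalDegree h.ne_zero
  rw [← hu] at h3
  have h4 := totalDegree_mul (X i : S3) u
  rw [h3, h2.2, totalDegree_X] at h4
  omega

/-- sums of multiplicities over the three groups -/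
def Sm (m : Fin 3 → Fin 3 → ℕ) (s : Fin 3) : ℕ := m s 0 + m s 1 + m s 2

/-- sum of squares of all multiplicities -/
def Qm (m : Fin 3 → Fin 3 → ℕ) : ℕ := ∑ s, ∑ i, m s i ^ 2

omit hw in
lemma num_cremona {d : ℕ} {m : Fin 3 → Fin 3 → ℕ} (i1 : m 0 1 + m 0 2 ≤ d)
    (i2 : m 0 0 + m 0 2 ≤ d) (i3 : m 0 0 + m 0 1 ≤ d) (i4 : m 0 0 + m 0 1 + m 0 2 ≤ 2 * d) :
    Sm (mC d m) 0 + 2 * Sm m 0 = 3 * d ∧ Sm (mC d m) 1 = Sm m 2 ∧ Sm (mC d m) 2 = Sm m 1 ∧
    Qm (mC d m) + d ^ 2 = Qm m + (2 * d - m 0 0 - m 0 1 - m 0 2) ^ 2 := by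
  have e00 : mC d m 0 0 = d - m 0 1 - m 0 2 := rfl
  have e01 : mC d m 0 1 = d - m 0 0 - m 0 2 := rfl
  have e02 : mC d m 0 2 = d - m 0 0 - m 0 1 := rfl
  have e1 : ∀ i, mC d m 1 i = m 2 i := fun i => rfl
  have e2 : ∀ i, mC d m 2 i = m 1 i := fun i => rfl
  unfold Sm Qm
  simp only [Fin.sum_univ_three, e00, e01, e02, e1, e2]
  generalize m 0 0 = a at *
  generalize m 0 1 = b at *
  generalize m 0 2 = c at *
  refine ⟨by omega, trivial, trivial, ?_⟩
  obtain ⟨x, hx⟩ : ∃ x, d = b + c + x := ⟨d - b - c, by omega⟩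
  have hx' : d - b - c = x := by omega
  obtain ⟨y, hy'⟩ : ∃ y, y = d - a - c := ⟨_, rfl⟩
  obtain ⟨z, hz'⟩ : ∃ z, z = d - a - b := ⟨_, rfl⟩
  obtain ⟨t, ht'⟩ : ∃ t, t = 2 * d - a - b - c := ⟨_, rfl⟩
  rw [hx', ← hy', ← hz', ← ht']
  have hy : (y : ℤ) = d - a - c := by omega
  have hz : (z : ℤ) = d - a - b := by omega
  have ht : (t : ℤ) = 2 * d - a - b - c := by omega
  have hxx : (x : ℤ) = d - b - c := by omega
  zify
  rw [hy, hz, ht, hxx]
  ring

/-- the induction statement -/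
def Fam (w : ℂ) (j : ℕ) : Prop := ∃ F m, Good w F ((j + 1) ^ 2) m ∧
  Sm m 0 = (j + 1) * (j + 2) ∧ Sm m 1 = j * (j + 2) ∧ Sm m 2 = j * (j + 1) ∧
  Qm m = ((j + 1) ^ 2) ^ 2 + 1

omit hw in
lemma Sm_pm (m : Fin 3 → Fin 3 → ℕ) (s : Fin 3) : Sm (fun s i => m (pm s) i) s = Sm m (pm s) := rfl

omit hw in
lemma Sm_pp (m : Fin 3 → Fin 3 → ℕ) (s : Fin 3) : Sm (fun s i => m (pp s) i) s = Sm m (pp s) := rfl

omit hw in
lemma Qm_pm (m : Fin 3 → Fin 3 → ℕ) : Qm (fun s i => m (pm s) i) = Qm m := by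
  unfold Qm
  simp only [Fin.sum_univ_three, show pm 0 = 2 from rfl, show pm 1 = 0 from rfl,
    show pm 2 = 1 from rfl]
  ring

omit hw in
lemma Qm_pp (m : Fin 3 → Fin 3 → ℕ) : Qm (fun s i => m (pp s) i) = Qm m := by
  unfold Qm
  simp only [Fin.sum_univ_three, show pp 0 = 1 from rfl, show pp 1 = 2 from rfl,
    show pp 2 = 0 from rfl]
  ring

lemma fam_step (j : ℕ) {F : S3} {m : Fin 3 → Fin 3 → ℕ} (h : Good w F ((j + 1) ^ 2) m)
    (s0 : Sm m 0 = (j + 1) * (j + 2)) (s1 : Sm m 1 = j * (j + 2)) (s2 : Sm m 2 = j * (j + 1))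
    (hq : Qm m = ((j + 1) ^ 2) ^ 2 + 1) (hX : ∀ i, ¬ (X i : S3) ∣ Lc ((w - 1) / 3) F) :
    Fam w (j + 1) := by
  obtain ⟨m1, hm1⟩ : ∃ m1 : Fin 3 → Fin 3 → ℕ, m1 = fun s i => m (pm s) i := ⟨_, rfl⟩
  have g1 := good_delta hw h
  rw [← hm1] at g1
  obtain ⟨⟨i1, i2, i3, i4⟩, g2⟩ := g1.cremona hw hX
  obtain ⟨n0, n1, n2, n3⟩ := num_cremona i1 i2 i3 i4
  have t0 : Sm m1 0 = j * (j + 1) := by rw [hm1]; exact s2
  have t1 : Sm m1 1 = (j + 1) * (j + 2) := by rw [hm1]; exact s0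
  have t2 : Sm m1 2 = j * (j + 2) := by rw [hm1]; exact s1
  have tq : Qm m1 = ((j + 1) ^ 2) ^ 2 + 1 := by rw [hm1]; exact (Qm_pm m).trans hq
  have hd1 : 2 * (j + 1) ^ 2 - m1 0 0 - m1 0 1 - m1 0 2 = (j + 1) * (j + 2) := by
    have e : 2 * (j + 1) ^ 2 = j * (j + 1) + (j + 1) * (j + 2) := by ring
    unfold Sm at t0
    omega
  rw [hd1] at g2 n3
  obtain ⟨m2, hm2⟩ : ∃ m2, m2 = mC ((j + 1) ^ 2) m1 := ⟨_, rfl⟩
  rw [← hm2] at n0 n1 n2 n3 g2
  have u0 : Sm m2 0 = (j + 1) * (j + 3) := by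
    have e : 3 * (j + 1) ^ 2 = (j + 1) * (j + 3) + 2 * (j * (j + 1)) := by ring
    rw [t0] at n0
    omega
  have u1 : Sm m2 1 = j * (j + 2) := n1.trans t2
  have u2 : Sm m2 2 = (j + 1) * (j + 2) := n2.trans t1
  have uq : Qm m2 = ((j + 1) * (j + 2)) ^ 2 + 1 := by
    rw [tq] at n3
    omega
  -- second half
  obtain ⟨m3, hm3⟩ : ∃ m3 : Fin 3 → Fin 3 → ℕ, m3 = fun s i => m2 (pp s) i := ⟨_, rfl⟩
  have g3 := good_delta_inv hw g2
  rw [← hm3] at g3
  have hX3 : ∀ i, ¬ (X i : S3) ∣ Lc ((w ^ 2 - 1) / 3) (T (av ((j + 1) ^ 2) m1)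
      (Lc ((w - 1) / 3) F)) := fun i => g3.not_dvd (by nlinarith) i
  obtain ⟨⟨i1', i2', i3', i4'⟩, g4⟩ := g3.cremona hw hX3
  obtain ⟨n0', n1', n2', n3'⟩ := num_cremona i1' i2' i3' i4'
  have v0 : Sm m3 0 = j * (j + 2) := by rw [hm3]; exact u1
  have v1 : Sm m3 1 = (j + 1) * (j + 2) := by rw [hm3]; exact u2
  have v2 : Sm m3 2 = (j + 1) * (j + 3) := by rw [hm3]; exact u0
  have vq : Qm m3 = ((j + 1) * (j + 2)) ^ 2 + 1 := by rw [hm3]; exact (Qm_pp m2).trans uq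
  have hd2 : 2 * ((j + 1) * (j + 2)) - m3 0 0 - m3 0 1 - m3 0 2 = (j + 1 + 1) ^ 2 := by
    have e : 2 * ((j + 1) * (j + 2)) = j * (j + 2) + (j + 1 + 1) ^ 2 := by ring
    unfold Sm at v0
    omega
  rw [hd2] at g4 n3'
  refine ⟨_, _, g4, ?_, ?_, ?_, ?_⟩
  · have e : 3 * ((j + 1) * (j + 2)) = (j + 1 + 1) * (j + 1 + 2) + 2 * (j * (j + 2)) := by ring
    rw [v0] at n0'
    omega
  · rw [n1', v2]
  · rw [n2', v1]
  · rw [vq] at n3'
    omega

lemma fam_zero_step : Fam w 1 := by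
  refine fam_step hw 0 (F := X 0) (m := m0) (good_start hw) rfl rfl rfl rfl ?_
  intro i hdvd
  obtain ⟨G, hG⟩ := hdvd
  have hw1 : w - 1 ≠ 0 := sub_ne_zero.2 (w_ne_one hw)
  -- evaluate at a coordinate point different from `i`
  have key : ∀ j : Fin 3, j ≠ i → eval (ept j) (Lc ((w - 1) / 3) (X 0)) = 0 := by
    intro j hj
    rw [hG, map_mul, eval_X]
    simp [ept, hj.symm]
  have e1 : eval (ept 1) (Lc ((w - 1) / 3) (X 0)) = (w - 1) / 3 := by
    rw [eval_Lc]; simp [ept]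
  have e2 : eval (ept 2) (Lc ((w - 1) / 3) (X 0)) = (w - 1) / 3 := by
    rw [eval_Lc]; simp [ept]
  have hne : (w - 1) / 3 ≠ 0 := div_ne_zero hw1 (by norm_num)
  by_cases hi : i = 1
  · have := key 2 (by rw [hi]; decide)
    rw [e2] at this
    exact hne this
  · have := key 1 (Ne.symm hi)
    rw [e1] at this
    exact hne this

lemma fam_all (j : ℕ) : Fam w (j + 1) := by
  induction j with
  | zero => exact fam_zero_step hw
  | succ j ih =>
    obtain ⟨F, m, g, s0, s1, s2, q⟩ := ih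
    exact fam_step hw (j + 1) g s0 s1 s2 q
      (fun i => (good_delta hw g).not_dvd (by nlinarith) i)

end

end Pool.Agent.Lib.MP_d885f5
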