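import Mathlib
import Pool.Agent.Lib.MP_d885f5.Family

open MvPolynomial

namespace Pool.Agent.Lib.MP_d885f5

/-! ### homogeneous forms in three variables with respect to a list of points -/

/-- `F` is an irreducible form of degree `d`, with multiplicity exactly `m i` at the point `P i`,
and it is the only such form up to constants; it does not vanish at the coordinate points. -/
structure GoodP {ι : Type*} (P : ι → (Fin 3 → ℂ)) (F : S3) (d : ℕ) (m : ι → ℕ) : Prop where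
  hom : F.IsHomogeneous d
  irr : Irreducible F
  mem : ∀ i, F ∈ ptIdeal (P i) ^ (m i)
  nmem : ∀ i, F ∉ ptIdeal (P i) ^ (m i + 1)
  uniq : ∀ G : S3, G.IsHomogeneous d → (∀ i, G ∈ ptIdeal (P i) ^ (m i)) → ∃ c : ℂ, G = C c * F
  nz : ∀ i, eval (ept i) F ≠ 0

/-- the linear change of coordinates -/
noncomputable def La (w : ℂ) : S3 →ₐ[ℂ] S3 :=
  aeval fun j : Fin 3 => X 0 + C (w ^ (j : ℕ)) * X 1 + C (w ^ (2 * (j : ℕ))) * X 2

/-- its inverse -/
noncomputable def Lb (w : ℂ) : S3 →ₐ[ℂ] S3 :=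
  aeval ![C (1 / 3) * (X 0 + X 1 + X 2), C (1 / 3) * (X 0 + C (w ^ 2) * X 1 + C w * X 2),
    C (1 / 3) * (X 0 + C w * X 1 + C (w ^ 2) * X 2)]

lemma algHom_homog (L : S3 →ₐ[ℂ] S3) (hhom : ∀ j, (L (X j)).IsHomogeneous 1) {G : S3} {n : ℕ}
    (hG : G.IsHomogeneous n) : (L G).IsHomogeneous n := by
  have := hG.aeval (fun j => L (X j)) (n := 1) hhom
  rw [one_mul] at this
  have e : (MvPolynomial.aeval fun j => L (X j)) = L := by
    apply MvPolynomial.algHom_ext
    intro i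
    simp
  rwa [e] at this

lemma hom_lin (a b c : ℂ) : (C a * X 0 + C b * X 1 + C c * X 2 : S3).IsHomogeneous 1 := by
  have h : ∀ (r : ℂ) (i : Fin 3), (C r * X i : S3).IsHomogeneous (0 + 1) := fun r i =>
    (isHomogeneous_C _ r).mul (isHomogeneous_X _ _)
  exact ((h a 0).add (h b 1)).add (h c 2)

lemma La_hom (w : ℂ) (j : Fin 3) : (La w (X j)).IsHomogeneous 1 := by
  have := hom_lin 1 (w ^ (j : ℕ)) (w ^ (2 * (j : ℕ)))
  simp only [C_1, one_mul] at this
  unfold La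
  rw [aeval_X]
  exact this

lemma Lb_hom (w : ℂ) (j : Fin 3) : (Lb w (X j)).IsHomogeneous 1 := by
  unfold Lb
  rw [aeval_X]
  fin_cases j
  · convert hom_lin (1 / 3) (1 / 3) (1 / 3) using 1
    simp only [Fin.zero_eta, Matrix.cons_val_zero]
    ring
  · convert hom_lin (1 / 3) (1 / 3 * w ^ 2) (1 / 3 * w) using 1
    simp only [Fin.mk_one, Matrix.cons_val_one, Matrix.cons_val_zero, C_mul]
    ring
  · convert hom_lin (1 / 3) (1 / 3 * w) (1 / 3 * w ^ 2) using 1
    simp only [Fin.reduceFinMk, Matrix.cons_val, C_mul]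
    ring

lemma eval_La (w : ℂ) (q : Fin 3 → ℂ) (j : Fin 3) :
    eval q (La w (X j)) = q 0 + w ^ (j : ℕ) * q 1 + w ^ (2 * (j : ℕ)) * q 2 := by
  simp [La]

lemma eval_Lb (w : ℂ) (q : Fin 3 → ℂ) (j : Fin 3) :
    eval q (Lb w (X j)) = ![1 / 3 * (q 0 + q 1 + q 2), 1 / 3 * (q 0 + w ^ 2 * q 1 + w * q 2),
      1 / 3 * (q 0 + w * q 1 + w ^ 2 * q 2)] j := by
  fin_cases j <;> simp [Lb]

/-- exponents of the affine nine points -/
noncomputable def P9 (w : ℂ) (i : Fin 3 × Fin 3) : Fin 3 → ℂ :=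
  ![w ^ (2 * ((i.1 : ℕ) + i.2)), w ^ (i.2 : ℕ), 1]

section
variable {w : ℂ} (hw : w ^ 2 + w + 1 = 0)
include hw

lemma La_Lb (F : S3) : La w (Lb w F) = F := by
  have h3 := w_cube hw
  have e : (La w).comp (Lb w) = AlgHom.id ℂ S3 := by
    apply MvPolynomial.algHom_ext
    intro i
    have H : (C (w ^ 2 + w + 1) : S3) = 0 := by rw [hw, C_0]
    have H3 : (C (w ^ 3) : S3) = 1 := by rw [h3, C_1]
    have K : (C (1 / 3 : ℂ) : S3) * 3 = 1 := by
      rw [show (3 : S3) = C 3 from (map_ofNat C 3).symm, ← C_mul]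
      norm_num
    simp only [map_add, map_pow, C_1] at H
    simp only [map_pow] at H3
    obtain ⟨W, hW⟩ : ∃ W : S3, W = C w := ⟨_, rfl⟩
    obtain ⟨t, ht⟩ : ∃ t : S3, t = C (1 / 3 : ℂ) := ⟨_, rfl⟩
    rw [← hW] at H H3
    rw [← ht] at K
    fin_cases i
    · simp only [La, Lb, AlgHom.comp_apply, aeval_X, Fin.zero_eta, Matrix.cons_val_zero,
        map_mul, map_add, algHom_C, algebraMap_eq, AlgHom.id_apply, Fin.val_zero, Fin.val_one,
        Fin.val_two, map_pow]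
      simp only [← hW, ← ht]
      linear_combination t * X 1 * H + t * X 2 * (H + W * H3) + X 0 * K
    · simp only [La, Lb, AlgHom.comp_apply, aeval_X, Fin.mk_one, Matrix.cons_val_zero,
        Matrix.cons_val_one,
        map_mul, map_add, algHom_C, algebraMap_eq, AlgHom.id_apply, Fin.val_zero, Fin.val_one,
        Fin.val_two, map_pow]
      simp only [← hW, ← ht]
      linear_combination t * X 0 * H + 2 * t * X 1 * H3 + t * X 2 * (H + W * H3 + W ^ 2 * H3) +
        X 1 * K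
    · simp only [La, Lb, AlgHom.comp_apply, aeval_X, Fin.reduceFinMk, Matrix.cons_val,
        map_mul, map_add, algHom_C, algebraMap_eq, AlgHom.id_apply, Fin.val_zero, Fin.val_one,
        Fin.val_two, map_pow]
      simp only [← hW, ← ht]
      linear_combination t * X 0 * H + t * X 1 * (H + W * H3) +
        t * X 2 * (H3 + (W ^ 3 + 1) * H3) + X 2 * K
  exact DFunLike.congr_fun e F

lemma Lb_La (F : S3) : Lb w (La w F) = F := by
  have h3 := w_cube hw
  have e : (Lb w).comp (La w) = AlgHom.id ℂ S3 := by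
    apply MvPolynomial.algHom_ext
    intro i
    have H : (C (w ^ 2 + w + 1) : S3) = 0 := by rw [hw, C_0]
    have H3 : (C (w ^ 3) : S3) = 1 := by rw [h3, C_1]
    have K : (C (1 / 3 : ℂ) : S3) * 3 = 1 := by
      rw [show (3 : S3) = C 3 from (map_ofNat C 3).symm, ← C_mul]
      norm_num
    simp only [map_add, map_pow, C_1] at H
    simp only [map_pow] at H3
    obtain ⟨W, hW⟩ : ∃ W : S3, W = C w := ⟨_, rfl⟩
    obtain ⟨t, ht⟩ : ∃ t : S3, t = C (1 / 3 : ℂ) := ⟨_, rfl⟩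
    rw [← hW] at H H3
    rw [← ht] at K
    simp only [La, Lb, AlgHom.comp_apply, aeval_X, Matrix.cons_val,
        map_mul, map_add, algHom_C, algebraMap_eq, AlgHom.id_apply, map_pow]
    simp only [← hW, ← ht]
    fin_cases i
    · simp only [Fin.zero_eta]
      linear_combination t * X 1 * H + t * X 2 * H + X 0 * K
    · simp only [Fin.mk_one]
      linear_combination t * X 0 * H + 2 * t * X 1 * H3 + t * X 2 * (H + W * H3) +
        X 1 * K
    · simp only [Fin.reduceFinMk]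
      linear_combination t * X 0 * (H + W * H3) + t * X 1 * (H + W * H3 + W ^ 2 * H3) +
        t * X 2 * (H3 + (W ^ 3 + 1) * H3) + X 2 * K
  exact DFunLike.congr_fun e F

lemma P9_La (s i : Fin 3) : ∃ c : ℂ, c ≠ 0 ∧ ∀ j,
    eval (P9 w (s, i)) (La w (X j)) = c * pt w s i j := by
  have h3 := w_cube hw
  have hw0 := w_ne_zero hw
  have hA : (2 + w) * (2 + w ^ 2) = 3 := by linear_combination 2 * hw + h3
  have hB : (1 + 2 * w) * (1 + 2 * w ^ 2) = 3 := by linear_combination 2 * hw + 4 * h3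
  have c1 : (2 + w) ≠ 0 := by
    intro h; rw [h] at hA; norm_num at hA
  have c2 : (2 + w ^ 2) ≠ 0 := by
    intro h; rw [h] at hA; norm_num at hA
  have c3 : (1 + 2 * w) ≠ 0 := by
    intro h; rw [h] at hB; norm_num at hB
  have c4 : (1 + 2 * w ^ 2) ≠ 0 := by
    intro h; rw [h] at hB; norm_num at hB
  fin_cases s <;> fin_cases i
  · refine ⟨3, by norm_num, fun j => ?_⟩
    rw [eval_La]
    fin_cases j <;> simp [P9, pt]
    · ring
    · linear_combination ((1) * w ^ 0) * hw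
    · linear_combination ((1) * w ^ 0 + (-1) * w ^ 1 + (1) * w ^ 2) * hw
  · refine ⟨3 * w ^ 2, mul_ne_zero (by norm_num) (pow_ne_zero _ hw0), fun j => ?_⟩
    rw [eval_La]
    fin_cases j <;> simp [P9, pt]
    · linear_combination ((1) * w ^ 0) * hw
    · ring
    · linear_combination ((1) * w ^ 2) * hw
  · refine ⟨3 * w, mul_ne_zero (by norm_num) hw0, fun j => ?_⟩
    rw [eval_La]
    fin_cases j <;> simp [P9, pt]
    · linear_combination ((1) * w ^ 0 + (-1) * w ^ 1 + (1) * w ^ 2) * hw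
    · linear_combination ((1) * w ^ 2) * hw
    · linear_combination ((-3) * w ^ 1 + (3) * w ^ 2) * hw
  · refine ⟨(2 + w ^ 2) * w ^ 2, mul_ne_zero c2 (pow_ne_zero _ hw0), fun j => ?_⟩
    rw [eval_La]
    fin_cases j <;> simp [P9, pt]
    · linear_combination ((2) * w ^ 0 + (-2) * w ^ 1 + (1) * w ^ 2 + (-1) * w ^ 3) * hw
    · linear_combination ((1) * w ^ 1 + (-1) * w ^ 2) * hw
    · ring
  · refine ⟨1 + 2 * w, c3, fun j => ?_⟩
    rw [eval_La]
    fin_cases j <;> simp [P9, pt]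
    · linear_combination ((-1) * w ^ 1 + (1) * w ^ 2) * hw
    · linear_combination ((-1) * w ^ 1 + (1) * w ^ 2) * hw
    · linear_combination ((-1) * w ^ 0 + (-1) * w ^ 1 + (2) * w ^ 2) * hw
  · refine ⟨2 + w ^ 2, c2, fun j => ?_⟩
    rw [eval_La]
    fin_cases j <;> simp [P9, pt]
    · linear_combination ((-1) * w ^ 0 + (1) * w ^ 1 + (-1) * w ^ 3 + (1) * w ^ 4) * hw
    · linear_combination ((-2) * w ^ 0 + (2) * w ^ 1 + (-1) * w ^ 3 + (1) * w ^ 4) * hw
    · linear_combination ((-2) * w ^ 1 + (2) * w ^ 2 + (-1) * w ^ 3 + (1) * w ^ 4) * hw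
  · refine ⟨(2 + w) * w, mul_ne_zero c1 hw0, fun j => ?_⟩
    rw [eval_La]
    fin_cases j <;> simp [P9, pt]
    · linear_combination ((2) * w ^ 0 + (-2) * w ^ 1) * hw
    · linear_combination ((-1) * w ^ 1 + (1) * w ^ 2) * hw
    · linear_combination ((-2) * w ^ 1 + (2) * w ^ 2) * hw
  · refine ⟨2 + w, c1, fun j => ?_⟩
    rw [eval_La]
    fin_cases j <;> simp [P9, pt]
    · linear_combination ((-1) * w ^ 0 + (1) * w ^ 1 + (-1) * w ^ 3 + (1) * w ^ 4) * hw
    · linear_combination ((-1) * w ^ 3 + (1) * w ^ 4) * hw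
    · linear_combination ((-2) * w ^ 0 + (1) * w ^ 1 + (1) * w ^ 2 + (-1) * w ^ 3 + (1) * w ^ 4) * hw
  · refine ⟨1 + 2 * w ^ 2, c4, fun j => ?_⟩
    rw [eval_La]
    fin_cases j <;> simp [P9, pt]
    · linear_combination ((-1) * w ^ 2 + (1) * w ^ 3 + (-1) * w ^ 5 + (1) * w ^ 6) * hw
    · linear_combination ((-1) * w ^ 0 + (1) * w ^ 1 + (-1) * w ^ 2 + (1) * w ^ 3 + (-1) * w ^ 5 + (1) * w ^ 6) * hw
    · linear_combination ((-1) * w ^ 2 + (1) * w ^ 3 + (-1) * w ^ 5 + (1) * w ^ 6) * hw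

lemma pt_Lb (s i : Fin 3) : ∃ c : ℂ, c ≠ 0 ∧ ∀ j,
    eval (pt w s i) (Lb w (X j)) = c * P9 w (s, i) j := by
  obtain ⟨c, hc, hcc⟩ := P9_La hw s i
  refine ⟨c⁻¹, inv_ne_zero hc, fun j => ?_⟩
  have h1 : eval (P9 w (s, i)) (La w (Lb w (X j))) = P9 w (s, i) j := by
    rw [La_Lb hw, eval_X]
  rw [eval_comp, funext hcc, eval_scale (Lb_hom w j), pow_one] at h1
  rw [← h1]
  field_simp

lemma goodP_of_good {F : S3} {d : ℕ} {m : Fin 3 → Fin 3 → ℕ} (h : Good w F d m) :
    GoodP (P9 w) (La w F) d (fun i => m i.1 i.2) := by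
  have back : ∀ (G : S3) (n k : ℕ), G.IsHomogeneous n → ∀ s i, G ∈ ptIdeal (P9 w (s, i)) ^ k →
      Lb w G ∈ ptIdeal (pt w s i) ^ k := by
    intro G n k hG s i hk
    obtain ⟨c, hc, hcc⟩ := pt_Lb hw s i
    exact mem_pow_of_hom (Lb w) _ _ hcc (mem_pow_scale' hG hc hk)
  refine ⟨algHom_homog _ (La_hom w) h.hom, ?_, ?_, ?_, ?_, ?_⟩
  · let e : S3 ≃ₐ[ℂ] S3 := AlgEquiv.ofAlgHom (La w) (Lb w)
      (AlgHom.ext fun G => by rw [AlgHom.comp_apply, La_Lb hw, AlgHom.id_apply])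
      (AlgHom.ext fun G => by rw [AlgHom.comp_apply, Lb_La hw, AlgHom.id_apply])
    exact (MulEquiv.irreducible_iff e).2 h.irr
  · rintro ⟨s, i⟩
    obtain ⟨c, hc, hcc⟩ := P9_La hw s i
    exact mem_pow_of_hom (La w) _ _ hcc (mem_pow_scale' h.hom hc (h.mem s i))
  · rintro ⟨s, i⟩ hm
    have h1 := back (La w F) d (m s i + 1) (algHom_homog (La w) (La_hom w) h.hom) s i hm
    rw [Lb_La hw F] at h1
    exact h.nmem s i h1
  · intro G hG hGm
    obtain ⟨c, hc⟩ := h.uniq (Lb w G) (algHom_homog _ (Lb_hom w) hG)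
      (fun s i => back G d _ hG s i (hGm (s, i)))
    refine ⟨c, ?_⟩
    rw [← La_Lb hw G, hc, map_mul, algHom_C, algebraMap_eq]
  · intro i
    have e : (fun j => eval (ept i) (La w (X j))) = rp w i := by
      funext j
      rw [eval_La]
      fin_cases i <;> fin_cases j <;> simp [rp, ept]
    rw [eval_comp, e]
    exact h.nz i

end

end Pool.Agent.Lib.MP_d885f5
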