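import Mathlib
import Pool.Agent.Lib.MP_d885f5.Affine

open MvPolynomial

namespace Pool.Agent.Lib.MP_d885f5

/-- polynomials in two variables -/
abbrev A2 := MvPolynomial (Fin 2) ℂ

/-- exponent vector -/
noncomputable def f2 (a b : ℕ) : Fin 2 →₀ ℕ := Finsupp.equivFunOnFinite.symm ![a, b]

@[simp] lemma f2_zero (a b : ℕ) : f2 a b 0 = a := rfl
@[simp] lemma f2_one (a b : ℕ) : f2 a b 1 = b := rfl

lemma ext2 {e e' : Fin 2 →₀ ℕ} (h0 : e 0 = e' 0) (h1 : e 1 = e' 1) : e = e' := by
  ext i
  fin_cases i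
  · exact h0
  · exact h1

lemma deg2 (e : Fin 2 →₀ ℕ) : e.degree = e 0 + e 1 := by
  rw [Finsupp.degree_eq_sum, Fin.sum_univ_two]

lemma mono2 (e : Fin 2 →₀ ℕ) (r : ℂ) :
    (monomial e r : A2) = C r * (X 0 ^ e 0 * X 1 ^ e 1) := by
  rw [monomial_eq, Finsupp.prod_fintype _ _ (fun i => pow_zero _), Fin.prod_univ_two]

lemma le_deg2 {g : A2} {e : Fin 2 →₀ ℕ} (he : e ∈ g.support) : e 0 + e 1 ≤ g.totalDegree := by
  have := le_totalDegree he
  rwa [Finsupp.sum_fintype _ _ (fun i => rfl), Fin.sum_univ_two] at this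

lemma deg2_le {g : A2} {n : ℕ} (h : ∀ e ∈ g.support, e 0 + e 1 ≤ n) : g.totalDegree ≤ n := by
  rw [totalDegree]
  refine Finset.sup_le fun e he => ?_
  rw [Finsupp.sum_fintype _ _ (fun i => rfl), Fin.sum_univ_two]
  exact h e he

/-- dehomogenization -/
noncomputable def dh : S3 →ₐ[ℂ] A2 := aeval ![X 0, X 1, 1]

lemma dh_monomial (e : Fin 3 →₀ ℕ) (r : ℂ) : dh (monomial e r) = monomial (f2 (e 0) (e 1)) r := by
  rw [mono3, mono2]
  simp only [dh, map_mul, map_pow, aeval_X, algHom_C, algebraMap_eq, f2_zero, f2_one,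
    Matrix.cons_val_zero, Matrix.cons_val_one, Matrix.cons_val, one_pow, mul_one]

/-- homogenization of degree `n` -/
noncomputable def hm (n : ℕ) (g : A2) : S3 :=
  ∑ e ∈ g.support, monomial (fs (e 0) (e 1) (n - e 0 - e 1)) (coeff e g)

lemma dh_hm (n : ℕ) (g : A2) : dh (hm n g) = g := by
  conv_rhs => rw [g.as_sum]
  unfold hm
  rw [map_sum]
  refine Finset.sum_congr rfl fun e _ => ?_
  rw [dh_monomial, fs_zero, fs_one]
  refine congrArg (fun z => (monomial z (coeff e g) : A2)) ?_
  exact ext2 rfl rfl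

lemma hm_homog {n : ℕ} {g : A2} (h : g.totalDegree ≤ n) : (hm n g).IsHomogeneous n := by
  unfold hm
  refine IsHomogeneous.sum _ _ _ fun e he => isHomogeneous_monomial _ ?_
  have := le_deg2 he
  rw [deg3, fs_zero, fs_one, fs_two]
  omega

lemma coeff_dh {F : S3} {n : ℕ} (hF : F.IsHomogeneous n) (e : Fin 2 →₀ ℕ) :
    coeff e (dh F) = if e 0 + e 1 ≤ n then coeff (fs (e 0) (e 1) (n - e 0 - e 1)) F else 0 := by
  classical
  conv_lhs => rw [F.as_sum]
  rw [map_sum, coeff_sum]
  simp only [dh_monomial, coeff_monomial]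
  split_ifs with he
  · by_cases hx : fs (e 0) (e 1) (n - e 0 - e 1) ∈ F.support
    · rw [Finset.sum_eq_single_of_mem _ hx]
      · rw [if_pos]
        exact ext2 rfl rfl
      · intro x hx1 hne
        rw [if_neg]
        intro h'
        apply hne
        have h0 : x 0 = e 0 := by rw [← h']; rfl
        have h1 : x 1 = e 1 := by rw [← h']; rfl
        have := homog_degree hF hx1
        apply ext3 <;> simp only [fs_zero, fs_one, fs_two] <;> omega
    · rw [notMem_support_iff.1 hx]
      refine Finset.sum_eq_zero fun x hx1 => ?_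
      rw [if_neg]
      intro h'
      apply hx
      have h0 : x 0 = e 0 := by rw [← h']; rfl
      have h1 : x 1 = e 1 := by rw [← h']; rfl
      have := homog_degree hF hx1
      have h2 : x = fs (e 0) (e 1) (n - e 0 - e 1) := by
        apply ext3 <;> simp only [fs_zero, fs_one, fs_two] <;> omega
      rw [← h2]
      exact hx1
  · refine Finset.sum_eq_zero fun x hx1 => ?_
    rw [if_neg]
    intro h'
    apply he
    have h0 : x 0 = e 0 := by rw [← h']; rfl
    have h1 : x 1 = e 1 := by rw [← h']; rfl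
    have := homog_degree hF hx1
    omega

lemma dh_inj {F G : S3} {n : ℕ} (hF : F.IsHomogeneous n) (hG : G.IsHomogeneous n)
    (h : dh F = dh G) : F = G := by
  ext x
  by_cases hx : x 0 + x 1 + x 2 = n
  · have e : fs (x 0) (x 1) (n - x 0 - x 1) = x := by
      apply ext3 <;> simp only [fs_zero, fs_one, fs_two] <;> omega
    have key : ∀ H : S3, H.IsHomogeneous n → coeff (f2 (x 0) (x 1)) (dh H) = coeff x H :=
      fun H hH => (coeff_dh hH _).trans ((if_pos (by rw [f2_zero, f2_one]; omega)).trans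
        (congrArg (fun z => coeff z H) e))
    rw [← key F hF, ← key G hG, h]
  · rw [hF.coeff_eq_zero, hG.coeff_eq_zero]
    · rw [deg3]; exact hx
    · rw [deg3]; exact hx

lemma hm_dh {F : S3} {n : ℕ} (hF : F.IsHomogeneous n) (h : (dh F).totalDegree ≤ n) :
    hm n (dh F) = F := dh_inj (hm_homog h) hF (dh_hm _ _)

lemma dh_deg_le {F : S3} {n : ℕ} (hF : F.IsHomogeneous n) : (dh F).totalDegree ≤ n := by
  apply deg2_le
  intro e he
  by_contra hc
  rw [mem_support_iff, coeff_dh hF, if_neg hc] at he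
  exact he rfl

lemma eval_ept {F : S3} {d : ℕ} (hF : F.IsHomogeneous d) (i : Fin 3) :
    eval (ept i) F = coeff (Finsupp.single i d) F := by
  classical
  rw [eval_eq']
  have key : ∀ e ∈ F.support, e ≠ Finsupp.single i d → ∏ j, ept i j ^ e j = 0 := by
    intro e he hne
    have h1 : ∃ j, j ≠ i ∧ e j ≠ 0 := by
      by_contra hc
      push Not at hc
      apply hne
      have h2 : e = Finsupp.single i (e i) := by
        ext j
        by_cases hj : j = i
        · rw [hj, Finsupp.single_eq_same]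
        · rw [hc j hj, Finsupp.single_apply, if_neg (Ne.symm hj)]
      have h3 : e.degree = d := by
        by_contra h
        exact (mem_support_iff.1 he) (hF.coeff_eq_zero h)
      rw [h2, Finsupp.degree_single] at h3
      rw [h2, h3]
    obtain ⟨j, hj, hej⟩ := h1
    apply Finset.prod_eq_zero (Finset.mem_univ j)
    simp [ept, hj, hej]
  by_cases hs : Finsupp.single i d ∈ F.support
  · rw [Finset.sum_eq_single_of_mem _ hs]
    · have : ∏ j, ept i j ^ (Finsupp.single i d) j = 1 := by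
        apply Finset.prod_eq_one
        intro j _
        by_cases hj : j = i
        · simp [ept, hj]
        · rw [Finsupp.single_apply, if_neg (Ne.symm hj), pow_zero]
      rw [this, mul_one]
    · intro e he hne
      rw [key e he hne, mul_zero]
  · rw [notMem_support_iff.1 hs]
    refine Finset.sum_eq_zero fun e he => ?_
    rw [key e he, mul_zero]
    rintro rfl
    exact hs he

lemma hm_mem {g : A2} {n k : ℕ} (hn : g.totalDegree ≤ n) {q : Fin 3 → ℂ} (h2 : q 2 = 1)
    (h : g ∈ ptIdeal ![q 0, q 1] ^ k) : hm n g ∈ ptIdeal q ^ k := by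
  rcases Nat.eq_zero_or_pos k with rfl | hk
  · rw [pow_zero, Ideal.one_eq_top]
    exact Submodule.mem_top
  obtain ⟨z, hz⟩ : ∃ z : S3, z = ∑ j ∈ Finset.range k, (1 - X 2) ^ j := ⟨_, rfl⟩
  have hzx : z * X 2 = 1 - (1 - X 2) ^ k := by
    have := geom_sum_mul_neg (1 - X 2 : S3) k
    rw [sub_sub_cancel, ← hz] at this
    exact this
  have hI : (1 - X 2 : S3) ^ k ∈ ptIdeal q ^ k := by
    apply Ideal.pow_mem_pow
    rw [mem_ptIdeal]
    simp [h2]
  have hze : eval q z = 1 := by
    have h3 := congrArg (eval q) hzx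
    simp only [map_mul, map_sub, map_one, map_pow, eval_X, h2, mul_one, sub_self] at h3
    rw [h3, zero_pow hk.ne', sub_zero]
  have hpow : ∀ e : ℕ, (z * X 2) ^ e - 1 ∈ ptIdeal q ^ k := by
    intro e
    have h4 : z * X 2 - 1 ∣ (z * X 2) ^ e - 1 := by
      have := sub_dvd_pow_sub_pow (z * X 2) 1 e
      rwa [one_pow] at this
    obtain ⟨t, ht⟩ := h4
    rw [ht]
    apply Ideal.mul_mem_right
    rw [hzx]
    have : (1 - (1 - X 2) ^ k - 1 : S3) = - (1 - X 2) ^ k := by ring
    rw [this]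
    exact neg_mem hI
  have h5 : (aeval ![X 0 * z, X 1 * z] : A2 →ₐ[ℂ] S3) g ∈ ptIdeal q ^ k := by
    refine mem_pow_of_hom _ q _ (fun i => ?_) h
    fin_cases i <;> simp [hze]
  have h6 : X 2 ^ n * (aeval ![X 0 * z, X 1 * z] : A2 →ₐ[ℂ] S3) g - hm n g ∈ ptIdeal q ^ k := by
    have h11 : (aeval ![X 0 * z, X 1 * z] : A2 →ₐ[ℂ] S3) g =
        ∑ e ∈ g.support, (aeval ![X 0 * z, X 1 * z] : A2 →ₐ[ℂ] S3) (monomial e (coeff e g)) := by
      conv_lhs => rw [g.as_sum]
      rw [map_sum]
    unfold hm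
    rw [h11, Finset.mul_sum, ← Finset.sum_sub_distrib]
    refine Ideal.sum_mem _ fun e he => ?_
    have h7 := le_deg2 he
    rw [mono2, mono3, fs_zero, fs_one, fs_two]
    simp only [map_mul, map_pow, aeval_X, algHom_C, algebraMap_eq, Matrix.cons_val_zero,
      Matrix.cons_val_one]
    obtain ⟨t, ht⟩ : ∃ t, n = e 0 + e 1 + t := ⟨n - (e 0 + e 1), by omega⟩
    have h8 : X 2 ^ n * (C (coeff e g) * ((X 0 * z) ^ e 0 * (X 1 * z) ^ e 1)) -
        C (coeff e g) * (X 0 ^ e 0 * X 1 ^ e 1 * X 2 ^ (n - e 0 - e 1)) =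
        (C (coeff e g) * X 0 ^ e 0 * X 1 ^ e 1 * X 2 ^ t) * ((z * X 2) ^ (e 0 + e 1) - 1) := by
      have h9 : n - e 0 - e 1 = t := by omega
      rw [h9, ht]
      ring
    rw [h8]
    exact Ideal.mul_mem_left _ _ (hpow _)
  have h10 := Ideal.sub_mem _ (Ideal.mul_mem_left _ (X 2 ^ n) h5) h6
  rwa [sub_sub_cancel] at h10

/-- affine version of `GoodP`. -/
structure GoodA {ι : Type*} (p : ι → (Fin 2 → ℂ)) (f : A2) (d : ℕ) (m : ι → ℕ) : Prop where
  deg : f.totalDegree = d
  irr : Irreducible f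
  mem : ∀ i, f ∈ ptIdeal (p i) ^ (m i)
  nmem : ∀ i, f ∉ ptIdeal (p i) ^ (m i + 1)
  uniq : ∀ g : A2, g.totalDegree ≤ d → (∀ i, g ∈ ptIdeal (p i) ^ (m i)) → ∃ c : ℂ, g = C c * f

/-- nonvanishing of the three extreme coefficients -/
structure Corner (f : A2) (d : ℕ) : Prop where
  n0 : coeff 0 f ≠ 0
  nx : coeff (Finsupp.single 0 d) f ≠ 0
  ny : coeff (Finsupp.single 1 d) f ≠ 0

lemma goodA_of_goodP {ι : Type*} {P : ι → (Fin 3 → ℂ)} (hP : ∀ i, P i 2 = 1) {F : S3} {d : ℕ}
    {m : ι → ℕ} (hd : 0 < d) (h : GoodP P F d m) :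
    GoodA (fun i => ![P i 0, P i 1]) (dh F) d m ∧ Corner (dh F) d := by
  have hle := dh_deg_le h.hom
  have cx : coeff (Finsupp.single 0 d) (dh F) ≠ 0 := by
    rw [coeff_dh h.hom, if_pos (by simp)]
    have := h.nz 0
    rw [eval_ept h.hom] at this
    convert this using 2
    apply ext3 <;> simp
  have cy : coeff (Finsupp.single 1 d) (dh F) ≠ 0 := by
    rw [coeff_dh h.hom, if_pos (by simp)]
    have := h.nz 1
    rw [eval_ept h.hom] at this
    convert this using 2
    apply ext3 <;> simp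
  have c0 : coeff 0 (dh F) ≠ 0 := by
    rw [coeff_dh h.hom, if_pos (by simp)]
    have := h.nz 2
    rw [eval_ept h.hom] at this
    convert this using 2
    apply ext3 <;> simp
  have hdeg : (dh F).totalDegree = d := by
    apply le_antisymm hle
    have := le_deg2 (mem_support_iff.2 cx)
    simpa using this
  have hne : dh F ≠ 0 := by
    intro h0
    rw [h0] at c0
    simp at c0
  refine ⟨⟨hdeg, ?_, ?_, ?_, ?_⟩, ⟨c0, cx, cy⟩⟩
  · refine ⟨?_, fun a b hab => ?_⟩
    · intro hu
      rw [MvPolynomial.isUnit_iff_totalDegree_of_isReduced] at hu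
      omega
    · have ha : a ≠ 0 := by rintro rfl; rw [zero_mul] at hab; exact hne hab
      have hb : b ≠ 0 := by rintro rfl; rw [mul_zero] at hab; exact hne hab
      have hsum : a.totalDegree + b.totalDegree = d := by
        rw [← totalDegree_mul_of_isDomain ha hb, ← hab, hdeg]
      have hF : F = hm a.totalDegree a * hm b.totalDegree b := by
        apply dh_inj h.hom (n := d)
        · rw [← hsum]
          exact (hm_homog le_rfl).mul (hm_homog le_rfl)
        · rw [map_mul, dh_hm, dh_hm, hab]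
      have unit_of : ∀ g : A2, IsUnit (hm g.totalDegree g) → IsUnit g := by
        intro g hg
        have := hg.map dh
        rwa [dh_hm] at this
      rcases h.irr.isUnit_or_isUnit hF with hu | hu
      · exact Or.inl (unit_of a hu)
      · exact Or.inr (unit_of b hu)
  · intro i
    refine mem_pow_of_hom dh _ _ (fun j => ?_) (h.mem i)
    fin_cases j <;> simp [dh, hP]
  · intro i hm'
    have h1 := hm_mem hle (hP i) hm'
    rw [hm_dh h.hom hle] at h1
    exact h.nmem i h1
  · intro g hg hgm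
    obtain ⟨c, hc⟩ := h.uniq (hm d g) (hm_homog hg) (fun i => hm_mem hg (hP i) (hgm i))
    refine ⟨c, ?_⟩
    rw [← dh_hm d g, hc, map_mul, algHom_C, algebraMap_eq]

end Pool.Agent.Lib.MP_d885f5
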