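import Mathlib
import Pool.Agent.Lib.MP_d885f5.Dehom

open MvPolynomial

namespace Pool.Agent.Lib.MP_d885f5

/-- `X_i ↦ X_i ^ 2` -/
noncomputable def sq (i : Fin 2) : A2 →ₐ[ℂ] A2 := aeval fun j => if j = i then X j ^ 2 else X j

/-- `X_i ↦ - X_i` -/
noncomputable def ng (i : Fin 2) : A2 →ₐ[ℂ] A2 := aeval fun j => if j = i then - X j else X j

/-- `X_i ↦ 0` -/
noncomputable def z0 (i : Fin 2) : A2 →ₐ[ℂ] A2 := aeval fun j => if j = i then 0 else X j

/-- doubling the `i`-th exponent -/
noncomputable def dbl (i : Fin 2) (e : Fin 2 →₀ ℕ) : Fin 2 →₀ ℕ :=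
  f2 (if i = 0 then 2 * e 0 else e 0) (if i = 1 then 2 * e 1 else e 1)

/-- halving the `i`-th exponent -/
noncomputable def hlf (i : Fin 2) (e : Fin 2 →₀ ℕ) : Fin 2 →₀ ℕ :=
  f2 (if i = 0 then e 0 / 2 else e 0) (if i = 1 then e 1 / 2 else e 1)

lemma sq_monomial (i : Fin 2) (e : Fin 2 →₀ ℕ) (r : ℂ) :
    sq i (monomial e r) = monomial (dbl i e) r := by
  rw [mono2, mono2]
  fin_cases i
  · simp only [sq, dbl, map_mul, map_pow, aeval_X, algHom_C, algebraMap_eq, f2_zero, f2_one,
      Fin.zero_eta, if_true, one_ne_zero, if_false, zero_ne_one]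
    ring
  · simp only [sq, dbl, map_mul, map_pow, aeval_X, algHom_C, algebraMap_eq, f2_zero, f2_one,
      Fin.mk_one, if_true, one_ne_zero, if_false, zero_ne_one]
    ring

lemma dbl_hlf (i : Fin 2) {e : Fin 2 →₀ ℕ} (h : e i % 2 = 0) : dbl i (hlf i e) = e := by
  fin_cases i
  · have h' : e 0 % 2 = 0 := h
    apply ext2 <;> simp [dbl, hlf]
    omega
  · have h' : e 1 % 2 = 0 := h
    apply ext2 <;> simp [dbl, hlf]
    omega

lemma dbl_hlf' (i : Fin 2) {e : Fin 2 →₀ ℕ} (h : e i % 2 = 1) :
    Finsupp.single i 1 + dbl i (hlf i e) = e := by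
  fin_cases i
  · have h' : e 0 % 2 = 1 := h
    apply ext2 <;> simp [dbl, hlf]
    omega
  · have h' : e 1 % 2 = 1 := h
    apply ext2 <;> simp [dbl, hlf]
    omega

lemma hlf_dbl (i : Fin 2) (e : Fin 2 →₀ ℕ) : hlf i (dbl i e) = e := by
  fin_cases i <;> apply ext2 <;> simp [dbl, hlf]

lemma dbl_inj (i : Fin 2) : Function.Injective (dbl i) := fun e e' h => by
  rw [← hlf_dbl i e, h, hlf_dbl]

lemma sq_sum (i : Fin 2) (p : A2) : sq i p = ∑ e ∈ p.support, monomial (dbl i e) (coeff e p) := by
  conv_lhs => rw [p.as_sum]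
  rw [map_sum]
  exact Finset.sum_congr rfl fun e _ => sq_monomial i e _

lemma coeff_sq (i : Fin 2) (e : Fin 2 →₀ ℕ) (p : A2) : coeff (dbl i e) (sq i p) = coeff e p := by
  classical
  rw [sq_sum, coeff_sum]
  simp only [coeff_monomial]
  by_cases he : e ∈ p.support
  · rw [Finset.sum_eq_single_of_mem _ he, if_pos rfl]
    intro x _ hne
    rw [if_neg fun h => hne (dbl_inj i h)]
  · rw [notMem_support_iff.1 he]
    refine Finset.sum_eq_zero fun x hx => ?_
    rw [if_neg]
    intro h
    rw [dbl_inj i h] at hx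
    exact he hx

lemma sq_injective (i : Fin 2) : Function.Injective (sq i) := fun p q h => by
  ext e
  rw [← coeff_sq i, h, coeff_sq]

lemma ng_monomial (i : Fin 2) (e : Fin 2 →₀ ℕ) (r : ℂ) :
    ng i (monomial e r) = monomial e ((-1) ^ (e i) * r) := by
  rw [mono2, mono2]
  fin_cases i
  · simp only [ng, map_mul, map_pow, aeval_X, algHom_C, algebraMap_eq,
      Fin.zero_eta, if_true, one_ne_zero, if_false]
    rw [neg_pow (X 0 : A2), C_neg, C_1]
    ring
  · simp only [ng, map_mul, map_pow, aeval_X, algHom_C, algebraMap_eq,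
      Fin.mk_one, if_true, if_false, zero_ne_one]
    rw [neg_pow (X 1 : A2), C_neg, C_1]
    ring

lemma coeff_ng (i : Fin 2) (e : Fin 2 →₀ ℕ) (p : A2) :
    coeff e (ng i p) = (-1) ^ (e i) * coeff e p := by
  classical
  conv_lhs => rw [p.as_sum]
  rw [map_sum, coeff_sum]
  simp only [ng_monomial, coeff_monomial]
  by_cases he : e ∈ p.support
  · rw [Finset.sum_eq_single_of_mem _ he, if_pos rfl]
    intro x _ hne
    rw [if_neg hne]
  · rw [notMem_support_iff.1 he, mul_zero]
    refine Finset.sum_eq_zero fun x hx => ?_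
    rw [if_neg]
    rintro rfl
    exact he hx

lemma ng_ng (i : Fin 2) (p : A2) : ng i (ng i p) = p := by
  ext e
  rw [coeff_ng, coeff_ng, ← mul_assoc, ← mul_pow]
  norm_num

/-- the part of `p` with `i`-th exponent congruent to `b`, with that exponent halved -/
noncomputable def part (i : Fin 2) (b : ℕ) (p : A2) : A2 :=
  ∑ e ∈ p.support with e i % 2 = b, monomial (hlf i e) (coeff e p)

lemma mem_part {i : Fin 2} {b : ℕ} {p : A2} {x : Fin 2 →₀ ℕ} (h : x ∈ (part i b p).support) :
    ∃ e ∈ p.support, e i % 2 = b ∧ hlf i e = x := by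
  classical
  by_contra hc
  push Not at hc
  rw [mem_support_iff] at h
  apply h
  unfold part
  rw [coeff_sum]
  refine Finset.sum_eq_zero fun e he => ?_
  rw [Finset.mem_filter] at he
  rw [coeff_monomial, if_neg (hc e he.1 he.2)]

lemma part_decomp (i : Fin 2) (p : A2) : p = sq i (part i 0 p) + X i * sq i (part i 1 p) := by
  classical
  unfold part
  rw [map_sum, map_sum, Finset.mul_sum]
  have h0 : ∑ e ∈ p.support with e i % 2 = 0, sq i (monomial (hlf i e) (coeff e p)) =
      ∑ e ∈ p.support with e i % 2 = 0, monomial e (coeff e p) := by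
    refine Finset.sum_congr rfl fun e he => ?_
    rw [Finset.mem_filter] at he
    rw [sq_monomial, dbl_hlf i he.2]
  have h1 : ∑ e ∈ p.support with e i % 2 = 1, X i * sq i (monomial (hlf i e) (coeff e p)) =
      ∑ e ∈ p.support with ¬ (e i % 2 = 0), monomial e (coeff e p) := by
    refine Finset.sum_congr ?_ fun e he => ?_
    · ext e
      simp only [Finset.mem_filter, and_congr_right_iff]
      intro _
      omega
    · rw [Finset.mem_filter] at he
      rw [sq_monomial, X, monomial_mul, one_mul, dbl_hlf' i (by omega)]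
  rw [h0, h1, Finset.sum_filter_add_sum_filter_not]
  exact p.as_sum

lemma ng_X (i : Fin 2) : ng i (X i) = - X i := by simp [ng]

lemma ng_sq (i : Fin 2) (p : A2) : ng i (sq i p) = sq i p := by
  have e : (ng i).comp (sq i) = sq i := by
    apply MvPolynomial.algHom_ext
    intro j
    simp only [ng, sq, AlgHom.comp_apply, aeval_X]
    split_ifs with h
    · rw [map_pow, aeval_X, if_pos h, neg_sq]
    · rw [aeval_X, if_neg h]
  exact DFunLike.congr_fun e p

lemma z0_sq (i : Fin 2) (p : A2) : z0 i (sq i p) = z0 i p := by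
  have e : (z0 i).comp (sq i) = z0 i := by
    apply MvPolynomial.algHom_ext
    intro j
    simp only [z0, sq, AlgHom.comp_apply, aeval_X]
    split_ifs with h
    · rw [map_pow, aeval_X, if_pos h]
      simp
    · rw [aeval_X, if_neg h]
  exact DFunLike.congr_fun e p

lemma z0_ng (i : Fin 2) (p : A2) : z0 i (ng i p) = z0 i p := by
  have e : (z0 i).comp (ng i) = z0 i := by
    apply MvPolynomial.algHom_ext
    intro j
    simp only [z0, ng, AlgHom.comp_apply, aeval_X]
    split_ifs with h
    · rw [map_neg, aeval_X, if_pos h, neg_zero]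
    · rw [aeval_X, if_neg h]
  exact DFunLike.congr_fun e p

lemma z0_sq_comm {i j : Fin 2} (hij : i ≠ j) (p : A2) : z0 i (sq j p) = sq j (z0 i p) := by
  have e : (z0 i).comp (sq j) = (sq j).comp (z0 i) := by
    apply MvPolynomial.algHom_ext
    intro k
    simp only [z0, sq, AlgHom.comp_apply, aeval_X]
    split_ifs with h h' h'
    · exact absurd (h'.symm.trans h) hij
    · rw [map_pow, aeval_X, if_neg h', aeval_X, if_pos h]
    · rw [aeval_X, if_pos h', map_zero]
    · rw [aeval_X, if_neg h', aeval_X, if_neg h]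
  exact DFunLike.congr_fun e p

lemma z0_ng_comm {i j : Fin 2} (hij : i ≠ j) (p : A2) : z0 i (ng j p) = ng j (z0 i p) := by
  have e : (z0 i).comp (ng j) = (ng j).comp (z0 i) := by
    apply MvPolynomial.algHom_ext
    intro k
    simp only [z0, ng, AlgHom.comp_apply, aeval_X]
    split_ifs with h h' h'
    · exact absurd (h'.symm.trans h) hij
    · rw [map_neg, aeval_X, if_neg h', aeval_X, if_pos h]
    · rw [aeval_X, if_pos h', map_zero]
    · rw [aeval_X, if_neg h', aeval_X, if_neg h]
  exact DFunLike.congr_fun e p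

lemma even_of_ng {i : Fin 2} {p : A2} (h : ng i p = p) : ∃ q, p = sq i q := by
  refine ⟨part i 0 p, ?_⟩
  have h1 := part_decomp i p
  have h2 : ng i p = sq i (part i 0 p) - X i * sq i (part i 1 p) := by
    conv_lhs => rw [h1]
    rw [map_add, map_mul, ng_X, ng_sq, ng_sq]
    ring
  rw [h] at h2
  have h3 : (2 : A2) * (X i * sq i (part i 1 p)) = 0 := by linear_combination h2 - h1
  have h4 : X i * sq i (part i 1 p) = 0 := by
    rcases mul_eq_zero.1 h3 with h5 | h5
    · exact absurd h5 two_ne_zero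
    · exact h5
  rw [h4, add_zero] at h1
  exact h1

lemma unit_C {u : A2} (hu : IsUnit u) : ∃ c : ℂ, c ≠ 0 ∧ u = C c := by
  rw [MvPolynomial.isUnit_iff_totalDegree_of_isReduced] at hu
  refine ⟨_, isUnit_iff_ne_zero.1 hu.1, ?_⟩
  exact totalDegree_eq_zero_iff_eq_C.1 hu.2

lemma isUnit_C' {c : ℂ} (hc : c ≠ 0) : IsUnit (C c : A2) :=
  (isUnit_iff_ne_zero.2 hc).map C

lemma isUnit_of_sq {i : Fin 2} {p : A2} (h : IsUnit (sq i p)) : IsUnit p := by
  obtain ⟨c, hc, h1⟩ := unit_C h
  have h2 : sq i (C c) = C c := by rw [algHom_C, algebraMap_eq]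
  rw [← h2] at h1
  rw [sq_injective i h1]
  exact isUnit_C' hc

lemma norm_lemma (i : Fin 2) {g u v : A2} (hg : Irreducible g) (h : sq i g = u * v)
    (hu : ¬ IsUnit u) (hv : ¬ IsUnit v) : ∃ c : ℂ, c ≠ 0 ∧ sq i g = C c * (u * ng i u) := by
  have hinv : ∀ p : A2, ∃ q, p * ng i p = sq i q := fun p => even_of_ng (by
    rw [map_mul, ng_ng, mul_comm])
  obtain ⟨U, hU⟩ := hinv u
  obtain ⟨V, hV⟩ := hinv v
  have h1 : g ^ 2 = U * V := by
    apply sq_injective i
    rw [map_mul, ← hU, ← hV, map_pow, pow_two]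
    have h2 : sq i g = ng i u * ng i v := by rw [← map_mul, ← h, ng_sq]
    calc sq i g * sq i g = (u * v) * (ng i u * ng i v) := by rw [← h, ← h2]
      _ = _ := by ring
  obtain ⟨j, hj, hjU⟩ := (dvd_prime_pow hg.prime 2).1 (Dvd.intro V h1.symm)
  have hg0 := hg.ne_zero
  have hUu : IsUnit U → IsUnit u := fun h2 => by
    have h3 := h2.map (sq i)
    rw [← hU] at h3
    exact isUnit_of_mul_isUnit_left h3
  have hVv : IsUnit V → IsUnit v := fun h2 => by
    have h3 := h2.map (sq i)
    rw [← hV] at h3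
    exact isUnit_of_mul_isUnit_left h3
  interval_cases j
  · exfalso
    rw [pow_zero, associated_one_iff_isUnit] at hjU
    exact hu (hUu hjU)
  · rw [pow_one] at hjU
    obtain ⟨t, ht⟩ := hjU
    obtain ⟨c, hc, hct⟩ := unit_C t.isUnit
    refine ⟨c, hc, ?_⟩
    rw [← ht, hct, map_mul, algHom_C, algebraMap_eq, hU, mul_comm]
  · exfalso
    apply hv
    apply hVv
    obtain ⟨t, ht⟩ := hjU
    have hU0 : U ≠ 0 := by
      rintro rfl
      rw [zero_mul] at h1
      exact hg0 (pow_eq_zero_iff two_ne_zero |>.1 h1)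
    have h2 : (t : A2) = V := mul_left_cancel₀ hU0 (by rw [ht, h1])
    rw [← h2]
    exact t.isUnit

/-! ### irreducibility of `f (x ^ 2, y ^ 2)` -/

lemma z0_monomial (i : Fin 2) (e : Fin 2 →₀ ℕ) (r : ℂ) :
    z0 i (monomial e r) = if e i = 0 then monomial e r else 0 := by
  rw [mono2]
  fin_cases i
  · simp only [z0, map_mul, map_pow, aeval_X, algHom_C, algebraMap_eq,
      Fin.zero_eta, if_true, one_ne_zero, if_false]
    split_ifs with h
    · rw [h, pow_zero, pow_zero]
    · rw [zero_pow h]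
      ring
  · simp only [z0, map_mul, map_pow, aeval_X, algHom_C, algebraMap_eq,
      Fin.mk_one, if_true, if_false, zero_ne_one]
    split_ifs with h
    · rw [h, pow_zero, pow_zero]
    · rw [zero_pow h]
      ring

lemma coeff_z0 (i : Fin 2) (e : Fin 2 →₀ ℕ) (p : A2) :
    coeff e (z0 i p) = if e i = 0 then coeff e p else 0 := by
  classical
  conv_lhs => rw [p.as_sum]
  rw [map_sum, coeff_sum]
  simp only [z0_monomial]
  by_cases hei : e i = 0
  · rw [if_pos hei]
    by_cases he : e ∈ p.support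
    · rw [Finset.sum_eq_single_of_mem _ he, if_pos hei, coeff_monomial, if_pos rfl]
      intro x _ hne
      split_ifs
      · rw [coeff_monomial, if_neg hne]
      · exact coeff_zero _
    · rw [notMem_support_iff.1 he]
      refine Finset.sum_eq_zero fun x hx => ?_
      split_ifs
      · rw [coeff_monomial, if_neg]
        rintro rfl
        exact he hx
      · exact coeff_zero _
  · rw [if_neg hei]
    refine Finset.sum_eq_zero fun x hx => ?_
    split_ifs with h
    · rw [coeff_monomial, if_neg]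
      rintro rfl
      exact hei h
    · exact coeff_zero _

lemma z0_deg_le (i : Fin 2) (p : A2) : (z0 i p).totalDegree ≤ p.totalDegree := by
  apply deg2_le
  intro e he
  apply le_deg2
  rw [mem_support_iff, coeff_z0] at he
  rw [mem_support_iff]
  intro h
  apply he
  rw [h, ite_self]

lemma deg_z0 {f : A2} {d : ℕ} (hdeg : f.totalDegree = d) (i j : Fin 2) (hij : i ≠ j)
    (hc : coeff (Finsupp.single j d) f ≠ 0) : (z0 i f).totalDegree = d := by
  apply le_antisymm (hdeg ▸ z0_deg_le i f)
  have h1 : (Finsupp.single j d) ∈ (z0 i f).support := by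
    rw [mem_support_iff, coeff_z0, if_pos]
    · exact hc
    · rw [Finsupp.single_apply, if_neg hij.symm]
  have := le_deg2 h1
  fin_cases j <;> simpa using this

lemma even_deg {p t : A2} {c : ℂ} (hp : p ≠ 0) (h : p = C c * (t * t)) : Even p.totalDegree := by
  have hc : (C c : A2) ≠ 0 := by
    intro h0
    rw [h0, zero_mul] at h
    exact hp h
  have ht : t ≠ 0 := by
    rintro rfl
    rw [zero_mul, mul_zero] at h
    exact hp h
  rw [h, totalDegree_mul_of_isDomain hc (mul_ne_zero ht ht), totalDegree_C, zero_add,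
    totalDegree_mul_of_isDomain ht ht]
  exact ⟨_, rfl⟩

lemma irr_step0 {f : A2} {d : ℕ} (hd : Odd d) (hf : Irreducible f) (hc : Corner f d)
    (hdeg : f.totalDegree = d) : Irreducible (sq 0 f) := by
  refine ⟨fun h => hf.not_isUnit (isUnit_of_sq h), fun u v huv => ?_⟩
  by_contra hcon
  push Not at hcon
  obtain ⟨c, hc0, h1⟩ := norm_lemma 0 hf huv hcon.1 hcon.2
  have h2 : z0 0 f = C c * (z0 0 u * z0 0 u) := by
    rw [← z0_sq, h1, map_mul, map_mul, z0_ng, algHom_C, algebraMap_eq]
  have h3 := deg_z0 hdeg 0 1 (by decide) hc.ny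
  have hne : z0 0 f ≠ 0 := by
    intro h0
    rw [h0, totalDegree_zero] at h3
    rw [← h3] at hd
    exact absurd hd (by decide)
  have h4 := even_deg hne h2
  rw [h3] at h4
  exact (Nat.not_even_iff_odd.2 hd) h4

lemma irr_step1 {f : A2} {d : ℕ} (hd : Odd d) (hf : Irreducible f) (hc : Corner f d)
    (hdeg : f.totalDegree = d) : Irreducible (sq 1 (sq 0 f)) := by
  refine ⟨fun h => hf.not_isUnit (isUnit_of_sq (isUnit_of_sq h)), fun u v huv => ?_⟩
  by_contra hcon
  push Not at hcon
  obtain ⟨c, hc0, h1⟩ := norm_lemma 1 (irr_step0 hd hf hc hdeg) huv hcon.1 hcon.2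
  obtain ⟨p, hp⟩ : ∃ p, p = z0 1 u := ⟨_, rfl⟩
  have h2 : sq 0 (z0 1 f) = C c * (p * p) := by
    rw [← z0_sq_comm (by decide), ← z0_sq 1 (sq 0 f), h1, map_mul, map_mul, z0_ng, algHom_C,
      algebraMap_eq, hp]
  have hC : (C c : A2) ≠ 0 := by
    rw [Ne, C_eq_zero]
    exact hc0
  have h3 : ng 0 p * ng 0 p = p * p := by
    have h4 := congrArg (ng 0) h2
    rw [ng_sq, h2, map_mul, map_mul, algHom_C, algebraMap_eq] at h4
    exact (mul_left_cancel₀ hC h4).symm
  rcases mul_self_eq_mul_self_iff.1 h3 with h5 | h5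
  · -- even case
    obtain ⟨q, hq⟩ := even_of_ng h5
    have h6 : z0 1 f = C c * (q * q) := by
      apply sq_injective 0
      rw [h2, hq, map_mul, map_mul, algHom_C, algebraMap_eq]
    have h7 := deg_z0 hdeg 1 0 (by decide) hc.nx
    have hne : z0 1 f ≠ 0 := by
      intro h0
      rw [h0, totalDegree_zero] at h7
      rw [← h7] at hd
      exact absurd hd (by decide)
    have h8 := even_deg hne h6
    rw [h7] at h8
    exact (Nat.not_even_iff_odd.2 hd) h8
  · -- odd case
    have h6 : z0 0 p = 0 := by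
      have h7 := congrArg (z0 0) h5
      rw [z0_ng, map_neg] at h7
      have h8 : (2 : A2) * z0 0 p = 0 := by linear_combination h7
      rcases mul_eq_zero.1 h8 with h9 | h9
      · exact absurd h9 two_ne_zero
      · exact h9
    have h7 := congrArg (z0 0) h2
    rw [z0_sq, map_mul, map_mul, h6, mul_zero, mul_zero] at h7
    have h8 := congrArg (coeff 0) h7
    rw [coeff_z0, if_pos (by rfl), coeff_z0, if_pos (by rfl), coeff_zero] at h8
    exact hc.n0 h8

end Pool.Agent.Lib.MP_d885f5
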