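import Mathlib
import Pool.Agent.Lib.MP_d885f5.Square

open MvPolynomial

namespace Pool.Agent.Lib.MP_d885f5

/-- approximate square roots -/
lemma exists_sqrt (s : ℂ) (hs : s ≠ 0) (k : ℕ) : ∃ r : Polynomial ℂ, r.eval (s ^ 2) = s ∧
    (Polynomial.X - Polynomial.C (s ^ 2)) ^ (k + 1) ∣ r ^ 2 - Polynomial.X := by
  induction k with
  | zero =>
    refine ⟨Polynomial.C s, Polynomial.eval_C, ⟨-1, ?_⟩⟩
    rw [zero_add, pow_one, Polynomial.C_pow]
    ring
  | succ k ih =>
    obtain ⟨r, hr, h, hh⟩ := ih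
    obtain ⟨c, hc⟩ : ∃ c : ℂ, c = - h.eval (s ^ 2) / (2 * s) := ⟨_, rfl⟩
    obtain ⟨y, hy⟩ : ∃ y : Polynomial ℂ, y = Polynomial.X - Polynomial.C (s ^ 2) := ⟨_, rfl⟩
    rw [← hy] at hh
    have hy0 : y.eval (s ^ 2) = 0 := by rw [hy]; simp
    refine ⟨r + Polynomial.C c * y ^ (k + 1), ?_, ?_⟩
    · rw [Polynomial.eval_add, Polynomial.eval_mul, Polynomial.eval_pow, hy0, hr]
      simp
    · rw [← hy]
      have h1 : (r + Polynomial.C c * y ^ (k + 1)) ^ 2 - Polynomial.X = y ^ (k + 1) *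
          (h + 2 * Polynomial.C c * r + Polynomial.C c ^ 2 * y ^ (k + 1)) := by
        linear_combination hh
      rw [h1, pow_succ y (k + 1)]
      apply mul_dvd_mul_left
      rw [hy, Polynomial.dvd_iff_isRoot, Polynomial.IsRoot, ← hy]
      simp only [Polynomial.eval_add, Polynomial.eval_mul, Polynomial.eval_pow, hy0,
        Polynomial.eval_C, hr, Polynomial.eval_ofNat]
      rw [hc]
      field_simp
      ring

lemma sub_mem_of_X {σ τ : Type*} (φ ψ : MvPolynomial σ ℂ →ₐ[ℂ] MvPolynomial τ ℂ)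
    (J : Ideal (MvPolynomial τ ℂ)) (h : ∀ i, φ (X i) - ψ (X i) ∈ J) (g : MvPolynomial σ ℂ) :
    φ g - ψ g ∈ J := by
  have e : (Ideal.Quotient.mkₐ ℂ J).comp φ = (Ideal.Quotient.mkₐ ℂ J).comp ψ := by
    apply MvPolynomial.algHom_ext
    intro i
    exact Ideal.Quotient.eq.2 (h i)
  exact Ideal.Quotient.eq.1 (DFunLike.congr_fun e g)

/-- descent of vanishing orders along `X_i ↦ X_i ^ 2` -/
lemma descent (i : Fin 2) {g : A2} {q : Fin 2 → ℂ} {k : ℕ} (hq : q i ≠ 0)
    (h : sq i g ∈ ptIdeal q ^ k) : g ∈ ptIdeal (Function.update q i (q i ^ 2)) ^ k := by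
  obtain ⟨q', hq'⟩ : ∃ q', q' = Function.update q i (q i ^ 2) := ⟨_, rfl⟩
  rw [← hq']
  have hqi : q' i = q i ^ 2 := by rw [hq', Function.update_self]
  have hqj : ∀ j, j ≠ i → q' j = q j := fun j hj => by rw [hq', Function.update_of_ne hj]
  obtain ⟨r, hr, hdvd⟩ := exists_sqrt (q i) hq k
  obtain ⟨ρ, hρ⟩ : ∃ ρ : A2 →ₐ[ℂ] A2, ρ = aeval fun j =>
    if j = i then Polynomial.aeval (X i : A2) r else X j := ⟨_, rfl⟩
  have h1 : ρ (sq i g) ∈ ptIdeal q' ^ k := by
    refine mem_pow_of_hom ρ q' q (fun j => ?_) h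
    rw [hρ, aeval_X]
    split_ifs with hj
    · rw [hj]
      have : eval q' (Polynomial.aeval (X i : A2) r) = r.eval (q' i) := by
        rw [Polynomial.aeval_def, Polynomial.hom_eval₂, eval_X]
        rw [Polynomial.eval, algebraMap_eq]
        congr 1
        ext x
        simp
      rw [this, hqi, hr]
    · rw [eval_X, hqj j hj]
  have h2 : (ρ.comp (sq i)) g - (AlgHom.id ℂ A2) g ∈ ptIdeal q' ^ k := by
    apply sub_mem_of_X
    intro j
    rw [AlgHom.comp_apply, AlgHom.id_apply, sq, aeval_X]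
    split_ifs with hj
    · rw [map_pow, hρ, aeval_X, if_pos hj, hj]
      have h3 := map_dvd (Polynomial.aeval (X i : A2)) hdvd
      obtain ⟨t, ht⟩ := h3
      rw [map_sub, map_pow, Polynomial.aeval_X] at ht
      rw [ht]
      apply Ideal.mul_mem_right
      rw [map_pow, map_sub, Polynomial.aeval_X, Polynomial.aeval_C]
      apply Ideal.pow_le_pow_right (Nat.le_succ k)
      apply Ideal.pow_mem_pow
      rw [mem_ptIdeal, map_sub, eval_X, algebraMap_eq, eval_C, hqi, sub_self]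
    · rw [hρ, aeval_X, if_neg hj, sub_self]
      exact zero_mem _
  rw [AlgHom.comp_apply, AlgHom.id_apply] at h2
  have h3 := Ideal.sub_mem _ h1 h2
  rwa [sub_sub_cancel] at h3

lemma part_mem (i : Fin 2) {G : A2} {q : Fin 2 → ℂ} {k : ℕ} (hq : q i ≠ 0)
    (h1 : G ∈ ptIdeal q ^ k) (h2 : G ∈ ptIdeal (Function.update q i (- q i)) ^ k) {b : ℕ}
    (hb : b = 0 ∨ b = 1) : part i b G ∈ ptIdeal (Function.update q i (q i ^ 2)) ^ k := by
  have h3 : ng i G ∈ ptIdeal q ^ k := by
    refine mem_pow_of_hom (ng i) q _ (fun j => ?_) h2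
    rw [ng, aeval_X]
    split_ifs with hj
    · rw [hj, map_neg, eval_X, Function.update_self]
    · rw [eval_X, Function.update_of_ne hj]
  have h4 := part_decomp i G
  have h5 : ng i G = sq i (part i 0 G) - X i * sq i (part i 1 G) := by
    conv_lhs => rw [h4]
    rw [map_add, map_mul, ng_X, ng_sq, ng_sq]
    ring
  apply descent i hq
  rcases hb with rfl | rfl
  · have h6 : C 2 * sq i (part i 0 G) ∈ ptIdeal q ^ k := by
      have : C 2 * sq i (part i 0 G) = G + ng i G := by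
        rw [h5]
        nth_rewrite 2 [h4]
        rw [map_ofNat]
        ring
      rw [this]
      exact Ideal.add_mem _ h1 h3
    exact (C_mul_mem_iff two_ne_zero).1 h6
  · have h6 : C 2 * (X i * sq i (part i 1 G)) ∈ ptIdeal q ^ k := by
      have : C 2 * (X i * sq i (part i 1 G)) = G - ng i G := by
        rw [h5]
        nth_rewrite 2 [h4]
        rw [map_ofNat]
        ring
      rw [this]
      exact Ideal.sub_mem _ h1 h3
    exact mem_pow_of_mul (by rwa [eval_X]) ((C_mul_mem_iff two_ne_zero).1 h6)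

/-- sign -/
noncomputable def sgn (b : Bool) : ℂ := if b then -1 else 1

lemma sgn_sq (b : Bool) : sgn b ^ 2 = 1 := by cases b <;> simp [sgn]

lemma sgn_ne (b : Bool) : sgn b ≠ 0 := by cases b <;> simp [sgn]

lemma sgn_not (b : Bool) : sgn (!b) = - sgn b := by cases b <;> simp [sgn]

/-- the preimages under `(x, y) ↦ (x ^ 2, y ^ 2)` -/
noncomputable def pre {ι : Type*} (r : ι → (Fin 2 → ℂ)) (x : ι × Bool × Bool) : Fin 2 → ℂ :=
  ![sgn x.2.1 * r x.1 0, sgn x.2.2 * r x.1 1]

lemma mem_sq_support {i : Fin 2} {p : A2} {x : Fin 2 →₀ ℕ} (h : x ∈ (sq i p).support) :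
    ∃ e ∈ p.support, dbl i e = x := by
  classical
  by_contra hc
  push Not at hc
  rw [mem_support_iff, sq_sum, coeff_sum] at h
  apply h
  refine Finset.sum_eq_zero fun e he => ?_
  rw [coeff_monomial, if_neg (hc e he)]

lemma pre_ne {ι : Type*} {r : ι → (Fin 2 → ℂ)} (hr0 : ∀ i j, r i j ≠ 0) (x : ι × Bool × Bool)
    (j : Fin 2) : pre r x j ≠ 0 := by
  fin_cases j
  · exact mul_ne_zero (sgn_ne _) (hr0 _ _)
  · exact mul_ne_zero (sgn_ne _) (hr0 _ _)

lemma pre_upd {ι : Type*} {p r : ι → (Fin 2 → ℂ)} (hr : ∀ i j, r i j ^ 2 = p i j)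
    (i : ι) (a b : Bool) (q' : Fin 2 → ℂ)
    (hq' : q' = Function.update (pre r (i, a, b)) 1 (pre r (i, a, b) 1 ^ 2)) :
    Function.update q' 0 (q' 0 ^ 2) = p i := by
  funext j
  fin_cases j
  · simp [hq', pre, mul_pow, sgn_sq, hr]
  · simp [hq', pre, mul_pow, sgn_sq, hr]

lemma goodA_cover {ι : Type*} {p r : ι → (Fin 2 → ℂ)} (hr : ∀ i j, r i j ^ 2 = p i j)
    (hr0 : ∀ i j, r i j ≠ 0) {f : A2} {d : ℕ} {m : ι → ℕ} (hd : Odd d) (h : GoodA p f d m)
    (hc : Corner f d) :
    GoodA (pre r) (sq 1 (sq 0 f)) (2 * d) (fun x => m x.1) := by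
  have hd0 : 0 < d := hd.pos
  refine ⟨?_, irr_step1 hd h.irr hc h.deg, ?_, ?_, ?_⟩
  · apply le_antisymm
    · apply deg2_le
      intro e he
      obtain ⟨e', he', rfl⟩ := mem_sq_support he
      obtain ⟨e'', he'', rfl⟩ := mem_sq_support he'
      have := le_deg2 he''
      rw [h.deg] at this
      simp [dbl]
      omega
    · have h1 : dbl 1 (dbl 0 (Finsupp.single 0 d)) ∈ (sq 1 (sq 0 f)).support := by
        rw [mem_support_iff, coeff_sq, coeff_sq]
        exact hc.nx
      have := le_deg2 h1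
      simpa [dbl] using this
  · rintro ⟨i, a, b⟩
    refine mem_pow_of_hom ((sq 1).comp (sq 0)) _ (p i) (fun j => ?_) (h.mem i)
    fin_cases j
    · simp [sq, pre, mul_pow, sgn_sq, hr]
    · simp [sq, pre, mul_pow, sgn_sq, hr]
  · rintro ⟨i, a, b⟩ hm
    have h1 := descent 1 (pre_ne hr0 _ 1) hm
    have h2 := descent 0 (by
      rw [Function.update_of_ne (by decide)]
      exact pre_ne hr0 _ 0) h1
    rw [pre_upd hr i a b _ rfl] at h2
    exact h.nmem i h2
  · intro G hG hGm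
    -- first step
    have s1 : ∀ b1, (b1 = 0 ∨ b1 = 1) → ∀ i a b, part 1 b1 G ∈
        ptIdeal (Function.update (pre r (i, a, b)) 1 (pre r (i, a, b) 1 ^ 2)) ^ (m i) := by
      intro b1 hb1 i a b
      refine part_mem 1 (pre_ne hr0 _ 1) (hGm (i, a, b)) ?_ hb1
      have e : Function.update (pre r (i, a, b)) 1 (- pre r (i, a, b) 1) = pre r (i, a, !b) := by
        funext j
        fin_cases j
        · simp [pre]
        · simp [pre, sgn_not]
      rw [e]
      exact hGm (i, a, !b)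
    have s2 : ∀ b0 b1, (b0 = 0 ∨ b0 = 1) → (b1 = 0 ∨ b1 = 1) → ∀ i, part 0 b0 (part 1 b1 G) ∈
        ptIdeal (p i) ^ (m i) := by
      intro b0 b1 hb0 hb1 i
      have k1 := s1 b1 hb1 i false false
      have k2 := s1 b1 hb1 i true false
      obtain ⟨q', hq'⟩ : ∃ q', q' = Function.update (pre r (i, false, false)) 1
        (pre r (i, false, false) 1 ^ 2) := ⟨_, rfl⟩
      rw [← hq'] at k1
      have e : Function.update (pre r (i, true, false)) 1 (pre r (i, true, false) 1 ^ 2) =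
          Function.update q' 0 (- q' 0) := by
        rw [hq']
        funext j
        fin_cases j
        · simp [pre, sgn]
        · simp [pre, sgn]
      rw [e] at k2
      have := part_mem 0 (by
        rw [hq', Function.update_of_ne (by decide)]
        exact pre_ne hr0 _ 0) k1 k2 hb0
      rwa [pre_upd hr i false false q' hq'] at this
    have s3 : ∀ b0 b1, ∀ e ∈ (part 0 b0 (part 1 b1 G)).support,
        2 * (e 0 + e 1) + b0 + b1 ≤ 2 * d := by
      intro b0 b1 e he
      obtain ⟨e', he', hb0, rfl⟩ := mem_part he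
      obtain ⟨e'', he'', hb1, rfl⟩ := mem_part he'
      have := le_deg2 he''
      simp [hlf] at hb0 ⊢
      omega
    have s4 : ∀ b0 b1, (b0 = 0 ∨ b0 = 1) → (b1 = 0 ∨ b1 = 1) → 0 < b0 + b1 →
        part 0 b0 (part 1 b1 G) = 0 := by
      intro b0 b1 hb0 hb1 hpos
      have hdeg : (part 0 b0 (part 1 b1 G)).totalDegree ≤ d - 1 := by
        apply deg2_le
        intro e he
        have := s3 b0 b1 e he
        omega
      obtain ⟨c, hcc⟩ := h.uniq _ (by omega) (s2 b0 b1 hb0 hb1)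
      by_cases hc0 : c = 0
      · rw [hcc, hc0, C_0, zero_mul]
      · exfalso
        have hC : (C c : A2) ≠ 0 := by rwa [Ne, C_eq_zero]
        rw [hcc, totalDegree_mul_of_isDomain hC h.irr.ne_zero, totalDegree_C, h.deg] at hdeg
        omega
    obtain ⟨c, hcc⟩ := h.uniq (part 0 0 (part 1 0 G)) (by
      apply deg2_le
      intro e he
      have := s3 0 0 e he
      omega) (s2 0 0 (Or.inl rfl) (Or.inl rfl))
    refine ⟨c, ?_⟩
    rw [part_decomp 1 G, part_decomp 0 (part 1 0 G), part_decomp 0 (part 1 1 G),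
      s4 1 0 (Or.inr rfl) (Or.inl rfl) (by norm_num), s4 0 1 (Or.inl rfl) (Or.inr rfl) (by norm_num),
      s4 1 1 (Or.inr rfl) (Or.inr rfl) (by norm_num), hcc]
    simp only [map_mul, map_zero, mul_zero, add_zero, algHom_C, algebraMap_eq]

end Pool.Agent.Lib.MP_d885f5
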