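import Mathlib
import Pool.Agent.Lib.MP_d885f5.Cover

open MvPolynomial

namespace Pool.Agent.Lib.MP_d885f5

/-- index set of the monomials of degree `< k` -/
abbrev Idx (k : ℕ) := Σ n : Fin k, Fin (n.1 + 1)

/-- exponent of an index -/
noncomputable def iexp {k : ℕ} (x : Idx k) : Fin 2 →₀ ℕ := f2 x.2 (x.1 - x.2)

lemma iexp_sum {k : ℕ} (x : Idx k) : iexp x 0 + iexp x 1 = x.1 := by
  simp only [iexp, f2_zero, f2_one]
  omega

lemma iexp_inj {k : ℕ} : Function.Injective (iexp (k := k)) := by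
  rintro ⟨n, i⟩ ⟨n', i'⟩ h
  have h1 := iexp_sum (⟨n, i⟩ : Idx k)
  have h2 := iexp_sum (⟨n', i'⟩ : Idx k)
  rw [h, h2] at h1
  have h3 : n' = n := Fin.ext h1
  subst h3
  have h4 : iexp (⟨n', i⟩ : Idx k) 0 = iexp (⟨n', i'⟩ : Idx k) 0 := by rw [h]
  simp only [iexp, f2_zero] at h4
  rw [Fin.ext h4]

lemma iexp_surj {k : ℕ} {e : Fin 2 →₀ ℕ} (he : e 0 + e 1 < k) : ∃ x : Idx k, iexp x = e := by
  refine ⟨⟨⟨e 0 + e 1, he⟩, ⟨e 0, by show e 0 < e 0 + e 1 + 1; omega⟩⟩, ?_⟩
  apply ext2 <;> simp [iexp]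

lemma card_Idx (k : ℕ) : 2 * Fintype.card (Idx k) = k * (k + 1) := by
  rw [Fintype.card_sigma]
  simp only [Fintype.card_fin]
  rw [Fin.sum_univ_eq_sum_range (fun n => n + 1) k]
  induction k with
  | zero => rfl
  | succ k ih =>
    rw [Finset.sum_range_succ, mul_add, ih]
    ring

/-- translation -/
noncomputable def tr (q : Fin 2 → ℂ) : A2 →ₐ[ℂ] A2 := aeval fun j => X j + C (q j)

lemma tr_tr (q : Fin 2 → ℂ) (g : A2) : tr (-q) (tr q g) = g := by
  have e : (tr (-q)).comp (tr q) = AlgHom.id ℂ A2 := by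
    apply MvPolynomial.algHom_ext
    intro j
    simp [tr]
  exact DFunLike.congr_fun e g

lemma tr_tr' (q : Fin 2 → ℂ) (g : A2) : tr q (tr (-q) g) = g := by
  have := tr_tr (-q) g
  rwa [neg_neg] at this

lemma tr_mem {q : Fin 2 → ℂ} {g : A2} {k : ℕ} : g ∈ ptIdeal q ^ k ↔ tr q g ∈ ptIdeal 0 ^ k := by
  constructor
  · intro h
    refine mem_pow_of_hom (tr q) 0 q (fun i => ?_) h
    simp [tr]
  · intro h
    rw [← tr_tr q g]
    refine mem_pow_of_hom (tr (-q)) q 0 (fun i => ?_) h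
    simp [tr]

/-- low order Taylor coefficients at `q` -/
noncomputable def tay (q : Fin 2 → ℂ) (k : ℕ) : A2 →ₗ[ℂ] (Idx k → ℂ) :=
  LinearMap.pi fun x => (lcoeff ℂ (iexp x)).comp (tr q).toLinearMap

lemma tay_apply (q : Fin 2 → ℂ) (k : ℕ) (g : A2) (x : Idx k) :
    tay q k g x = coeff (iexp x) (tr q g) := rfl

lemma tay_ker (q : Fin 2 → ℂ) (k : ℕ) (g : A2) : tay q k g = 0 ↔ g ∈ ptIdeal q ^ k := by
  rw [tr_mem, ptIdeal_zero, mem_pow_idealOfVars_iff']
  constructor
  · intro h e he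
    rw [deg2] at he
    obtain ⟨x, rfl⟩ := iexp_surj he
    have := congrFun h x
    rwa [tay_apply] at this
  · intro h
    funext x
    rw [tay_apply]
    apply h
    rw [deg2, iexp_sum]
    exact x.1.2

lemma tay_surj (q : Fin 2 → ℂ) (k : ℕ) : Function.Surjective (tay q k) := by
  classical
  intro c
  refine ⟨tr (-q) (∑ x, monomial (iexp x) (c x)), ?_⟩
  funext y
  rw [tay_apply, tr_tr', coeff_sum]
  simp only [coeff_monomial]
  rw [Finset.sum_eq_single_of_mem y (Finset.mem_univ _), if_pos rfl]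
  intro x _ hne
  rw [if_neg fun h => hne (iexp_inj h)]

lemma finrank_quot (q : Fin 2 → ℂ) (k : ℕ) :
    2 * Module.finrank ℂ (A2 ⧸ ptIdeal q ^ k) = k * (k + 1) := by
  have h1 : LinearMap.ker (tay q k) = (ptIdeal q ^ k).restrictScalars ℂ := by
    ext g
    rw [LinearMap.mem_ker, tay_ker, Submodule.restrictScalars_mem]
  have e1 := (tay q k).quotKerEquivOfSurjective (tay_surj q k)
  rw [h1] at e1
  have e2 := (Submodule.Quotient.restrictScalarsEquiv ℂ (ptIdeal q ^ k)).symm.trans e1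
  rw [e2.finrank_eq, Module.finrank_fintype_fun_eq_card, card_Idx]

instance finite_quot (q : Fin 2 → ℂ) (k : ℕ) : Module.Finite ℂ (A2 ⧸ ptIdeal q ^ k) := by
  have h1 : LinearMap.ker (tay q k) = (ptIdeal q ^ k).restrictScalars ℂ := by
    ext g
    rw [LinearMap.mem_ker, tay_ker, Submodule.restrictScalars_mem]
  have e1 := (tay q k).quotKerEquivOfSurjective (tay_surj q k)
  rw [h1] at e1
  have e2 := (Submodule.Quotient.restrictScalarsEquiv ℂ (ptIdeal q ^ k)).symm.trans e1
  exact Module.Finite.equiv e2.symm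

/-- all coefficients of a polynomial of degree at most `n` -/
noncomputable def cof (n : ℕ) : restrictTotalDegree (Fin 2) ℂ n →ₗ[ℂ] (Idx (n + 1) → ℂ) :=
  LinearMap.pi fun x => (lcoeff ℂ (iexp x)).comp (restrictTotalDegree (Fin 2) ℂ n).subtype

lemma cof_apply (n : ℕ) (g : restrictTotalDegree (Fin 2) ℂ n) (x : Idx (n + 1)) :
    cof n g x = coeff (iexp x) (g : A2) := rfl

lemma cof_bij (n : ℕ) : Function.Bijective (cof n) := by
  classical
  constructor
  · rw [← LinearMap.ker_eq_bot, LinearMap.ker_eq_bot']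
    rintro ⟨g, hg⟩ h
    rw [mem_restrictTotalDegree] at hg
    apply Subtype.ext
    change g = 0
    ext e
    rw [coeff_zero]
    by_contra hne
    have := le_deg2 (mem_support_iff.2 hne)
    obtain ⟨x, rfl⟩ := iexp_surj (show e 0 + e 1 < n + 1 by omega)
    exact hne (congrFun h x)
  · intro c
    refine ⟨⟨∑ x, monomial (iexp x) (c x), ?_⟩, ?_⟩
    · rw [mem_restrictTotalDegree]
      apply deg2_le
      intro e he
      rw [mem_support_iff, coeff_sum] at he
      obtain ⟨x, _, hx⟩ := Finset.exists_ne_zero_of_sum_ne_zero he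
      rw [coeff_monomial] at hx
      have : iexp x = e := by
        by_contra hc
        rw [if_neg hc] at hx
        exact hx rfl
      rw [← this, iexp_sum]
      omega
    · funext y
      rw [cof_apply]
      change coeff (iexp y) (∑ x, monomial (iexp x) (c x)) = c y
      rw [coeff_sum]
      simp only [coeff_monomial]
      rw [Finset.sum_eq_single_of_mem y (Finset.mem_univ _), if_pos rfl]
      intro x _ hne
      rw [if_neg fun h => hne (iexp_inj h)]

lemma finrank_restr (n : ℕ) :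
    2 * Module.finrank ℂ (restrictTotalDegree (Fin 2) ℂ n) = (n + 1) * (n + 2) := by
  rw [(LinearEquiv.ofBijective (cof n) (cof_bij n)).finrank_eq,
    Module.finrank_fintype_fun_eq_card, card_Idx]

end Pool.Agent.Lib.MP_d885f5
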