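import Mathlib
import Pool.Agent.Lib.MP_d885f5.Dim

open MvPolynomial

namespace Pool.Agent.Lib.MP_d885f5

/-- a primitive cube root of unity -/
noncomputable def om : ℂ := Complex.exp (2 * Real.pi * Complex.I / 3)

lemma om_prim : IsPrimitiveRoot om 3 := Complex.isPrimitiveRoot_exp 3 (by norm_num)

lemma om_eq : om ^ 2 + om + 1 = 0 := by
  have h := om_prim.geom_sum_eq_zero (by norm_num)
  rw [Finset.sum_range_succ, Finset.sum_range_succ, Finset.sum_range_one] at h
  linear_combination h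

/-- square roots of the nine points -/
noncomputable def r9 (i : Fin 3 × Fin 3) : Fin 2 → ℂ :=
  ![om ^ (4 * ((i.1 : ℕ) + i.2)), om ^ (2 * (i.2 : ℕ))]

lemma om_per (a : ℕ) : om ^ (a + 3) = om ^ a := by
  rw [pow_add, w_cube om_eq, mul_one]

lemma om_mod (a : ℕ) : om ^ a = om ^ (a % 3) := by
  conv_lhs => rw [← Nat.mod_add_div a 3, pow_add, pow_mul, w_cube om_eq, one_pow, mul_one]

lemma om_congr {a b : ℕ} (h : a % 3 = b % 3) : om ^ a = om ^ b := by
  rw [om_mod a, om_mod b, h]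

lemma om_pow_inj {a b : ℕ} (h : om ^ a = om ^ b) : a % 3 = b % 3 := by
  rw [om_mod a, om_mod b] at h
  exact om_prim.pow_inj (Nat.mod_lt _ (by norm_num)) (Nat.mod_lt _ (by norm_num)) h

/-- the 36 points, indexed by `(Fin 3 × Fin 3) × Bool × Bool` -/
noncomputable def q36 : (Fin 3 × Fin 3) × Bool × Bool → (Fin 2 → ℂ) := pre r9

lemma q36_inj : Function.Injective q36 := by
  rintro ⟨⟨s, i⟩, a, b⟩ ⟨⟨s', i'⟩, a', b'⟩ h
  have h0 := congrFun h 0
  have h1 := congrFun h 1
  simp only [q36, pre, r9, Matrix.cons_val_zero, Matrix.cons_val_one] at h0 h1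
  have k1 : i = i' := by
    have := congrArg (fun z => z ^ 2) h1
    simp only [mul_pow, sgn_sq, one_mul, ← pow_mul] at this
    have := om_pow_inj this
    apply Fin.ext
    have := i.2
    have := i'.2
    omega
  subst k1
  have k0 : s = s' := by
    have := congrArg (fun z => z ^ 2) h0
    simp only [mul_pow, sgn_sq, one_mul, ← pow_mul] at this
    have := om_pow_inj this
    apply Fin.ext
    have := s.2
    have := s'.2
    omega
  subst k0
  have hne : ∀ n : ℕ, om ^ n ≠ 0 := fun n => pow_ne_zero _ (w_ne_zero om_eq)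
  have e0 := mul_right_cancel₀ (hne _) h0
  have e1 := mul_right_cancel₀ (hne _) h1
  have sinj : ∀ x y : Bool, sgn x = sgn y → x = y := by
    intro x y hxy
    cases x <;> cases y
    · rfl
    · exfalso
      norm_num [sgn] at hxy
    · exfalso
      norm_num [sgn] at hxy
    · rfl
  rw [sinj _ _ e0, sinj _ _ e1]

/-- the main family of curves -/
theorem core (N : ℕ) : ∃ (d : ℕ) (m : (Fin 3 × Fin 3) × Bool × Bool → ℕ) (f : A2),
    GoodA q36 f d m ∧ N ≤ d ∧ ∑ x, m x * (m x + 1) = d * d + 6 * d := by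
  obtain ⟨F, m, g, s0, s1, s2, hq⟩ := fam_all om_eq (2 * N + 1)
  obtain ⟨j, hj⟩ : ∃ j, j = 2 * N + 1 + 1 := ⟨_, rfl⟩
  rw [← hj] at g s0 s1 s2 hq
  obtain ⟨d, hd⟩ : ∃ d, d = (j + 1) ^ 2 := ⟨_, rfl⟩
  have hodd : Odd d := by
    rw [hd, hj]
    apply Odd.pow
    exact ⟨N + 1, by ring⟩
  have hdN : N ≤ d := by
    rw [hd, hj]
    nlinarith
  have hsum : Sm m 0 + Sm m 1 + Sm m 2 + 1 = 3 * d := by
    rw [s0, s1, s2, hd]
    ring
  rw [← hd] at g hq
  have g1 := goodP_of_good om_eq g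
  obtain ⟨g2, hc⟩ := goodA_of_goodP (fun i => by simp [P9]) hodd.pos g1
  have g3 := goodA_cover (r := r9) (fun i k => by
    fin_cases k
    · simp only [r9, P9, Fin.zero_eta, Matrix.cons_val_zero]
      rw [← pow_mul]
      apply om_congr
      omega
    · simp only [r9, P9, Fin.mk_one, Matrix.cons_val_one, Matrix.cons_val_zero]
      rw [← pow_mul]
      apply om_congr
      omega) (fun i k => by
    fin_cases k
    · exact pow_ne_zero _ (w_ne_zero om_eq)
    · exact pow_ne_zero _ (w_ne_zero om_eq)) hodd g2 hc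
  refine ⟨2 * d, _, _, g3, by omega, ?_⟩
  have e1 : ∑ x : (Fin 3 × Fin 3) × Bool × Bool, m x.1.1 x.1.2 * (m x.1.1 x.1.2 + 1) =
      4 * (Qm m + (Sm m 0 + Sm m 1 + Sm m 2)) := by
    rw [Fintype.sum_prod_type]
    simp only [Finset.sum_const, Finset.card_univ, Fintype.card_prod, Fintype.card_bool,
      smul_eq_mul]
    rw [← Finset.mul_sum, Fintype.sum_prod_type]
    unfold Qm Sm
    simp only [Fin.sum_univ_three]
    ring
  rw [e1, hq]
  have e2 : Sm m 0 + Sm m 1 + Sm m 2 = 3 * d - 1 := by omega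
  have e3 : d ^ 2 + 1 + (3 * d - 1) = d ^ 2 + 3 * d := by
    have := hodd.pos
    omega
  rw [e2, e3]
  ring

end Pool.Agent.Lib.MP_d885f5
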