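import Mathlib

/-!
# Curves on a blow-up of the projective plane at distinct points

Let `p : Fin r → (Fin 2 → ℂ)` be distinct points of the affine chart `ℂ² = {z = 1}` of `ℙ²`, let
`X` be the blow-up of `ℙ²` at these points, `L` the pullback of a line and `E i` the exceptional
curves. Plane curves of degree `d` are given by polynomials in two variables of total degree at
most `d` (dehomogenized forms of degree `d`).

For `m i ≥ 0` let `Z = ∑ m i • p i` be the fat point scheme with local ring
`ℂ[x, y] / 𝔪_{p i} ^ {m i}` at `p i`. From `0 → I_Z(d) → O(d) → O_Z → 0` on `ℙ²`, together with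
`H^j(X, O_X(d L - ∑ m i E i)) = H^j(ℙ², I_Z(d))` and `H¹(ℙ², O(d)) = 0`, the spaces
`H⁰(X, O_X(d L - ∑ m i E i))` and `H¹(X, O_X(d L - ∑ m i E i))` are the kernel and the cokernel of
the restriction map `evalZ` below.
-/

open MvPolynomial

namespace Pool.Agent.Lib.MP_d885f5.Fat

/-- The maximal ideal of the point `q` of the affine plane. -/
noncomputable def pointIdeal (q : Fin 2 → ℂ) : Ideal (MvPolynomial (Fin 2) ℂ) :=
  RingHom.ker (MvPolynomial.eval q)

/-- The restriction map from the forms of degree `d` (polynomials of total degree at most `d`) to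
the functions on the fat point scheme `∑ m i • p i`. -/
noncomputable def evalZ {r : ℕ} (p : Fin r → (Fin 2 → ℂ)) (d : ℕ) (m : Fin r → ℕ) :
    restrictTotalDegree (Fin 2) ℂ d →ₗ[ℂ]
      ((i : Fin r) → MvPolynomial (Fin 2) ℂ ⧸ pointIdeal (p i) ^ m i) :=
  LinearMap.pi fun i =>
    (Ideal.Quotient.mkₐ ℂ (pointIdeal (p i) ^ m i)).toLinearMap.comp
      (restrictTotalDegree (Fin 2) ℂ d).subtype

/-- `h⁰(X, d L - ∑ m i E i)`. -/
noncomputable def h0 {r : ℕ} (p : Fin r → (Fin 2 → ℂ)) (d : ℕ) (m : Fin r → ℕ) : ℕ :=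
  Module.finrank ℂ (LinearMap.ker (evalZ p d m))

/-- `h¹(X, d L - ∑ m i E i)`. -/
noncomputable def h1 {r : ℕ} (p : Fin r → (Fin 2 → ℂ)) (d : ℕ) (m : Fin r → ℕ) : ℕ :=
  Module.finrank ℂ (((i : Fin r) → MvPolynomial (Fin 2) ℂ ⧸ pointIdeal (p i) ^ m i) ⧸
    LinearMap.range (evalZ p d m))

/-- `F` is an equation of an irreducible plane curve of degree `d` whose multiplicity at `p i` is
exactly `m i`; the strict transform of this curve is then an irreducible curve on `X` in the class
`d L - ∑ m i E i`. -/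
structure IsStrictCurve {r : ℕ} (p : Fin r → (Fin 2 → ℂ)) (F : MvPolynomial (Fin 2) ℂ) (d : ℕ)
    (m : Fin r → ℕ) : Prop where
  irreducible : Irreducible F
  degree : F.totalDegree = d
  mult : ∀ i, F ∈ pointIdeal (p i) ^ m i ∧ F ∉ pointIdeal (p i) ^ (m i + 1)

end Pool.Agent.Lib.MP_d885f5.Fat
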