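import Mathlib
import Pool.Agent.Lib.MP_d885f5.FatDefs
import Pool.Agent.Lib.MP_d885f5.Core

open MvPolynomial

namespace Pool.Agent.Lib.MP_d885f5.Fat

lemma evalZ_eq_zero {r : ℕ} {p : Fin r → (Fin 2 → ℂ)} {d : ℕ} {m : Fin r → ℕ}
    (g : restrictTotalDegree (Fin 2) ℂ d) :
    evalZ p d m g = 0 ↔ ∀ i, (g : A2) ∈ ptIdeal (p i) ^ m i := by
  constructor
  · intro h i
    exact Ideal.Quotient.eq_zero_iff_mem.1 (congrFun h i)
  · intro h
    funext i
    exact Ideal.Quotient.eq_zero_iff_mem.2 (h i)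

lemma fat_core (N : ℕ) (p : Fin 36 → (Fin 2 → ℂ)) {e : Fin 36 ≃ (Fin 3 × Fin 3) × Bool × Bool}
    (hp : ∀ i, p i = q36 (e i)) :
    ∃ (F : MvPolynomial (Fin 2) ℂ) (d : ℕ) (m : Fin 36 → ℕ), IsStrictCurve p F d m ∧
      h0 p d m = 1 ∧ N ≤ h1 p d m := by
  obtain ⟨d, m, f, g, hd, hs⟩ := core N
  refine ⟨f, d, fun i => m (e i), ⟨g.irr, g.deg, fun i => ?_⟩, ?_, ?_⟩
  · rw [hp i]
    exact ⟨g.mem (e i), g.nmem (e i)⟩
  all_goals
    have hf0 : f ≠ 0 := g.irr.ne_zero
    obtain ⟨fs, hfs⟩ : ∃ fs : restrictTotalDegree (Fin 2) ℂ d, (fs : A2) = f :=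
      ⟨⟨f, (mem_restrictTotalDegree _ _ _).2 g.deg.le⟩, rfl⟩
    have hker : LinearMap.ker (evalZ p d (fun i => m (e i))) = Submodule.span ℂ {fs} := by
      ext x
      rw [LinearMap.mem_ker, evalZ_eq_zero, Submodule.mem_span_singleton]
      constructor
      · intro h
        obtain ⟨c, hc⟩ := g.uniq x ((mem_restrictTotalDegree _ _ _).1 x.2) (fun y => by
          have := h (e.symm y)
          rwa [hp, e.apply_symm_apply] at this)
        refine ⟨c, Subtype.ext ?_⟩
        rw [hc, ← hfs, ← smul_eq_C_mul]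
        rfl
      · rintro ⟨c, rfl⟩ i
        have : ((c • fs : restrictTotalDegree (Fin 2) ℂ d) : A2) = C c * f := by
          rw [← hfs, ← smul_eq_C_mul]
          rfl
        rw [this, hp i]
        exact Ideal.mul_mem_left _ _ (g.mem (e i))
    have hfs0 : fs ≠ 0 := by
      intro h
      apply hf0
      rw [← hfs, h]
      rfl
    have hk1 : Module.finrank ℂ (LinearMap.ker (evalZ p d (fun i => m (e i)))) = 1 := by
      rw [hker, finrank_span_singleton hfs0]
  · exact hk1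
  · have hfin : Module.Finite ℂ (restrictTotalDegree (Fin 2) ℂ d) := inferInstance
    have hfinq : ∀ i, Module.Finite ℂ (MvPolynomial (Fin 2) ℂ ⧸ pointIdeal (p i) ^ m (e i)) :=
      fun i => finite_quot (p i) (m (e i))
    have h1 := LinearMap.finrank_range_add_finrank_ker (evalZ p d (fun i => m (e i)))
    rw [hk1] at h1
    have h2 := Submodule.finrank_quotient_add_finrank
      (LinearMap.range (evalZ p d (fun i => m (e i))))
    have h3 : 2 * Module.finrank ℂ ((i : Fin 36) → MvPolynomial (Fin 2) ℂ ⧸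
        pointIdeal (p i) ^ m (e i)) = d * d + 6 * d := by
      rw [Module.finrank_pi_fintype, Finset.mul_sum, ← hs]
      have h4 : ∀ i, 2 * Module.finrank ℂ (MvPolynomial (Fin 2) ℂ ⧸ pointIdeal (p i) ^ m (e i)) =
          m (e i) * (m (e i) + 1) := fun i => finrank_quot (p i) (m (e i))
      rw [Finset.sum_congr rfl fun i _ => h4 i]
      exact Equiv.sum_comp e (fun x => m x * (m x + 1))
    have h5 := finrank_restr d
    have e1 : (d + 1) * (d + 2) = d * d + 3 * d + 2 := by ring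
    rw [e1] at h5
    have key : N ≤ Module.finrank ℂ (((i : Fin 36) → MvPolynomial (Fin 2) ℂ ⧸
        pointIdeal (p i) ^ m (e i)) ⧸ LinearMap.range (evalZ p d (fun i => m (e i)))) := by
      omega
    exact key

theorem fat_main : ∃ p : Fin 36 → (Fin 2 → ℂ), Function.Injective p ∧
    ∀ N : ℕ, ∃ (F : MvPolynomial (Fin 2) ℂ) (d : ℕ) (m : Fin 36 → ℕ),
      IsStrictCurve p F d m ∧ h0 p d m = 1 ∧ N ≤ h1 p d m := by
  have e : Fin 36 ≃ (Fin 3 × Fin 3) × Bool × Bool :=
    (Fintype.equivFinOfCardEq (by simp)).symm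
  refine ⟨fun i => q36 (e i), q36_inj.comp e.injective, fun N => ?_⟩
  exact fat_core N _ (e := e) (fun i => rfl)

end Pool.Agent.Lib.MP_d885f5.Fat
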